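import Mathlib

open IsLocalRing

namespace Pool.Agent.H71

/-- In an integrally closed local domain, if `P y ⊆ j B` for the maximal ideal `P`, `y ∉ j B`,
then `P` is principal. -/
theorem principal_of_colon {R : Type*} [CommRing R] [IsDomain R] [IsLocalRing R]
    [IsNoetherianRing R] [IsIntegrallyClosed R] (y j : R) (hj : j ≠ 0)
    (h1 : ∀ b ∈ maximalIdeal R, b * y ∈ Ideal.span {j}) (h2 : y ∉ Ideal.span {j}) :
    (maximalIdeal R).IsPrincipal := by
  by_cases hbot : maximalIdeal R = ⊥
  · rw [hbot]; infer_instance
  by_cases hall : ∀ b ∈ maximalIdeal R, ∃ c ∈ maximalIdeal R, b * y = j * c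
  · exfalso
    let K := FractionRing R
    let x : K := algebraMap R K y / algebraMap R K j
    have hj' : algebraMap R K j ≠ 0 := by
      simpa using hj
    have hx : IsIntegral R x := by
      refine isIntegral_of_smul_mem_submodule (A := K) (M := K)
        (Submodule.map (Algebra.linearMap R K) (maximalIdeal R)) ?_ ?_ x ?_
      · intro h
        apply hbot
        rw [eq_bot_iff]
        intro b hb
        have : Algebra.linearMap R K b ∈ Submodule.map (Algebra.linearMap R K) (maximalIdeal R) :=
          Submodule.mem_map_of_mem hb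
        rw [h, Submodule.mem_bot] at this
        simpa using this
      · exact (IsNoetherian.noetherian (maximalIdeal R)).map _
      · rintro _ ⟨b, hb, rfl⟩
        obtain ⟨c, hc, hbc⟩ := hall b hb
        refine ⟨c, hc, ?_⟩
        have := congrArg (algebraMap R K) hbc
        simp only [map_mul] at this
        simp only [Algebra.linearMap_apply, smul_eq_mul, x]
        rw [div_mul_eq_mul_div, eq_div_iff hj']
        linear_combination -this
    obtain ⟨z, hz⟩ := IsIntegrallyClosed.isIntegral_iff.1 hx
    apply h2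
    rw [Ideal.mem_span_singleton]
    refine ⟨z, ?_⟩
    apply IsFractionRing.injective R K
    rw [map_mul, hz]
    simp only [x]
    rw [mul_div_cancel₀ _ hj']
  · push Not at hall
    obtain ⟨p, hp, hpc⟩ := hall
    obtain ⟨u, hu⟩ := Ideal.mem_span_singleton.1 (h1 p hp)
    have hu' : IsUnit u := by
      by_contra hnu
      exact hpc u ((mem_maximalIdeal _).2 hnu) hu
    obtain ⟨v, hv⟩ := hu'.exists_right_inv
    have hy : y ≠ 0 := by
      rintro rfl
      exact h2 (Ideal.zero_mem _)
    refine ⟨⟨p, le_antisymm ?_ ?_⟩⟩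
    · intro q hq
      obtain ⟨z, hz⟩ := Ideal.mem_span_singleton.1 (h1 q hq)
      refine Ideal.mem_span_singleton.2 ⟨v * z, ?_⟩
      apply mul_right_cancel₀ hy
      calc q * y = j * z := hz
        _ = (j * u) * (v * z) := by linear_combination (-(j * z)) * hv
        _ = p * (v * z) * y := by rw [← hu]; ring
    · rw [Ideal.submodule_span_eq, Ideal.span_singleton_le_iff_mem]
      exact hp

/-- A prime is good if the localization there is a field or a discrete valuation ring. -/
def GoodPrime {B : Type*} [CommRing B] (P : Ideal B) [P.IsPrime] : Prop :=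
  (maximalIdeal (Localization.AtPrime P)).IsPrincipal

/-- An ideal is big if it is not contained in any good prime. -/
def BigIdeal {B : Type*} [CommRing B] (J : Ideal B) : Prop :=
  ∀ (P : Ideal B) [P.IsPrime], GoodPrime P → ¬ J ≤ P

theorem goodPrime_bot {B : Type*} [CommRing B] [IsDomain B] : GoodPrime (⊥ : Ideal B) := by
  unfold GoodPrime
  have : maximalIdeal (Localization.AtPrime (⊥ : Ideal B)) = ⊥ := by
    rw [← Localization.AtPrime.map_eq_maximalIdeal, Ideal.map_bot]
  rw [this]
  infer_instance

theorem hartogs {B : Type*} [CommRing B] [IsDomain B] [IsNoetherianRing B] [IsIntegrallyClosed B]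
    (J : Ideal B) (hJ : BigIdeal J) (g : J → B)
    (hg : ∀ i j : J, (i : B) * g j = (j : B) * g i) :
    ∃ c : B, ∀ j : J, g j = (j : B) * c := by
  -- pick a nonzero element
  have hne : ∃ j0 : J, (j0 : B) ≠ 0 := by
    have := hJ ⊥ goodPrime_bot
    rw [SetLike.not_le_iff_exists] at this
    obtain ⟨j0, hj0, h⟩ := this
    exact ⟨⟨j0, hj0⟩, by simpa using h⟩
  obtain ⟨j0, hj0⟩ := hne
  have hswap : ∀ j : J, (j : B) * g j0 = (j0 : B) * g j := fun j ↦ hg j j0
  by_cases hmem : g j0 ∈ Ideal.span {(j0 : B)}
  · obtain ⟨c, hc⟩ := Ideal.mem_span_singleton.1 hmem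
    refine ⟨c, fun j ↦ ?_⟩
    apply mul_left_cancel₀ hj0
    rw [← hswap j, hc]; ring
  · exfalso
    let M := B ⧸ Ideal.span {(j0 : B)}
    let m : M := Ideal.Quotient.mk _ (g j0)
    have hm : m ≠ 0 := by
      intro h
      exact hmem (Ideal.Quotient.eq_zero_iff_mem.1 h)
    obtain ⟨P, hP, hle⟩ := exists_le_isAssociatedPrime_of_isNoetherianRing B m hm
    rw [isAssociatedPrime_iff] at hP
    obtain ⟨hPp, z, hz⟩ := hP
    obtain ⟨y, rfl⟩ := Ideal.Quotient.mk_surjective z
    have hmemP : ∀ b : B, b ∈ P ↔ b * y ∈ Ideal.span {(j0 : B)} := by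
      intro b
      rw [hz, Submodule.mem_colon_singleton, Submodule.mem_bot, ← Ideal.Quotient.eq_zero_iff_mem,
        map_mul]
      rfl
    have hJP : J ≤ P := by
      intro b hb
      apply hle
      rw [Submodule.mem_colon_singleton, Submodule.mem_bot]
      change Ideal.Quotient.mk _ (b * g j0) = 0
      rw [Ideal.Quotient.eq_zero_iff_mem, hswap ⟨b, hb⟩]
      exact Ideal.mul_mem_right _ _ (Ideal.mem_span_singleton_self _)
    refine hJ P ?_ hJP
    unfold GoodPrime
    have hic : IsIntegrallyClosed (Localization.AtPrime P) :=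
      isIntegrallyClosed_of_isLocalization _ P.primeCompl P.primeCompl_le_nonZeroDivisors
    refine principal_of_colon (algebraMap B _ y) (algebraMap B _ (j0 : B)) ?_ ?_ ?_
    · intro h
      apply hj0
      exact (IsLocalization.to_map_eq_zero_iff _ P.primeCompl_le_nonZeroDivisors).1 h
    · intro b hb
      have h3 : b * algebraMap B (Localization.AtPrime P) y ∈
          (Ideal.span {(j0 : B)}).map (algebraMap B (Localization.AtPrime P)) := by
        rw [← Localization.AtPrime.map_eq_maximalIdeal] at hb
        obtain ⟨⟨⟨a, ha⟩, s⟩, hs⟩ := (IsLocalization.mem_map_algebraMap_iff P.primeCompl _).1 hb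
        rw [IsLocalization.mem_map_algebraMap_iff P.primeCompl]
        refine ⟨⟨⟨a * y, (hmemP a).1 ha⟩, s⟩, ?_⟩
        simp only at hs ⊢
        rw [map_mul, ← hs]; ring
      rwa [Ideal.map_span, Set.image_singleton] at h3
    · intro h
      rw [← Set.image_singleton, ← Ideal.map_span,
        IsLocalization.mem_map_algebraMap_iff P.primeCompl] at h
      obtain ⟨⟨⟨a, ha⟩, s⟩, hs⟩ := h
      simp only at hs
      rw [← map_mul] at hs
      have hs2 := IsLocalization.injective (Localization.AtPrime P)
        P.primeCompl_le_nonZeroDivisors hs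
      apply s.2
      change (s : B) ∈ P
      rw [hmemP, mul_comm, hs2]
      exact ha

end Pool.Agent.H71
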