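import Mathlib

open scoped TensorProduct

namespace Pool.Agent.H71

universe u v w

section

variable {A : Type*} {B : Type*} [CommRing A] [CommRing B] [Algebra A B]
variable {M : Type*} [AddCommGroup M] [Module A M]
variable {N : Type*} [AddCommGroup N] [Module A N] [Module B N] [IsScalarTower A B N]

/-- The alternating map `(m_i) ↦ j m_1 ∧ ... ∧ j m_p`. -/
noncomputable def extAlt (B : Type*) [CommRing B] [Algebra A B] [Module B N] [IsScalarTower A B N]
    (p : ℕ) (j : M →ₗ[A] N) : M [⋀^Fin p]→ₗ[A] (⋀[B]^p N) :=
  { ((exteriorPower.ιMulti B p (M := N)).toMultilinearMap.restrictScalars A).compLinearMap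
      (fun _ ↦ j) with
    map_eq_zero_of_eq' := fun v i i' h hii ↦ by
      exact (exteriorPower.ιMulti B p (M := N)).map_eq_zero_of_eq (fun i ↦ j (v i))
        (by simp [h]) hii }

theorem extAlt_apply (p : ℕ) (j : M →ₗ[A] N) (m : Fin p → M) :
    extAlt B p j m = exteriorPower.ιMulti B p (fun i ↦ j (m i)) := rfl

/-- The map `⋀^p_A M → ⋀^p_B N` induced by an `A`-linear map `M → N`. -/
noncomputable def extMap (B : Type*) [CommRing B] [Algebra A B] [Module B N] [IsScalarTower A B N]
    (p : ℕ) (j : M →ₗ[A] N) : ⋀[A]^p M →ₗ[A] ⋀[B]^p N :=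
  exteriorPower.alternatingMapLinearEquiv (extAlt B p j)

theorem extMap_ιMulti (p : ℕ) (j : M →ₗ[A] N) (m : Fin p → M) :
    extMap B p j (exteriorPower.ιMulti A p m) = exteriorPower.ιMulti B p (fun i ↦ j (m i)) := by
  rw [extMap, exteriorPower.alternatingMapLinearEquiv_apply_ιMulti, extAlt_apply]

/-- Left exterior multiplication by `e`. -/
noncomputable def wedge (e : M) (q : ℕ) : ⋀[A]^q M →ₗ[A] ⋀[A]^(q + 1) M :=
  exteriorPower.alternatingMapLinearEquiv ((exteriorPower.ιMulti A (q + 1)).curryLeft e)

theorem wedge_ιMulti (e : M) (q : ℕ) (m : Fin q → M) :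
    wedge e q (exteriorPower.ιMulti A q m) = exteriorPower.ιMulti A (q + 1) (Matrix.vecCons e m) := by
  rw [wedge, exteriorPower.alternatingMapLinearEquiv_apply_ιMulti]
  rfl

theorem ιMulti_induction {P : Type*} [AddCommGroup P] [Module A P] (q : ℕ)
    (f g : ⋀[A]^q M →ₗ[A] P)
    (h : ∀ m, f (exteriorPower.ιMulti A q m) = g (exteriorPower.ιMulti A q m)) : f = g := by
  apply exteriorPower.linearMap_ext
  ext m
  exact h m

theorem extMap_wedge_coe (e : M) (q : ℕ) (j : M →ₗ[A] N) (x : ⋀[A]^q M) :
    ((extMap B (q + 1) j (wedge e q x) : ⋀[B]^(q + 1) N) : ExteriorAlgebra B N) =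
      ExteriorAlgebra.ι B (j e) * ((extMap B q j x : ⋀[B]^q N) : ExteriorAlgebra B N) := by
  let f : ⋀[A]^q M →ₗ[A] ExteriorAlgebra B N :=
    ((⋀[B]^(q + 1) N).subtype.restrictScalars A) ∘ₗ extMap B (q + 1) j ∘ₗ wedge e q
  let g : ⋀[A]^q M →ₗ[A] ExteriorAlgebra B N :=
    ((LinearMap.mulLeft B (ExteriorAlgebra.ι B (j e))).restrictScalars A) ∘ₗ
      ((⋀[B]^q N).subtype.restrictScalars A) ∘ₗ extMap B q j
  have : f = g := by
    apply ιMulti_induction
    intro m
    simp only [f, g, LinearMap.comp_apply, wedge_ιMulti, extMap_ιMulti]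
    change ExteriorAlgebra.ιMulti B (q + 1) (fun i ↦ j (Matrix.vecCons e m i)) =
      ExteriorAlgebra.ι B (j e) * ExteriorAlgebra.ιMulti B q (fun i ↦ j (m i))
    rw [ExteriorAlgebra.ιMulti_succ_apply]
    rfl
  exact LinearMap.congr_fun this x

theorem map_extMap {N' : Type*} [AddCommGroup N'] [Module A N'] [Module B N']
    [IsScalarTower A B N'] (p : ℕ) (j : M →ₗ[A] N) (g : N →ₗ[B] N') (x : ⋀[A]^p M) :
    exteriorPower.map p g (extMap B p j x) = extMap B p ((g.restrictScalars A) ∘ₗ j) x := by
  have : ((exteriorPower.map p g).restrictScalars A) ∘ₗ extMap B p j =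
      extMap B p ((g.restrictScalars A) ∘ₗ j) := by
    apply ιMulti_induction
    intro m
    simp only [LinearMap.comp_apply, extMap_ιMulti, LinearMap.coe_restrictScalars,
      exteriorPower.map_apply_ιMulti]
    rfl
  exact LinearMap.congr_fun this x

theorem extMap_surjective (hAB : Function.Surjective (algebraMap A B)) (p : ℕ) (j : M →ₗ[A] N)
    (hj : Function.Surjective j) : Function.Surjective (extMap B p j) := by
  rw [← LinearMap.range_eq_top, eq_top_iff]
  intro y _
  have hy : y ∈ Submodule.span B (Set.range (exteriorPower.ιMulti B p (M := N))) := by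
    rw [exteriorPower.ιMulti_span]; trivial
  induction hy using Submodule.span_induction with
  | mem x hx =>
    obtain ⟨n, rfl⟩ := hx
    choose m hm using fun i ↦ hj (n i)
    refine ⟨exteriorPower.ιMulti A p m, ?_⟩
    rw [extMap_ιMulti]
    congr 1
    ext i
    exact hm i
  | zero => exact Submodule.zero_mem _
  | add x y _ _ hx hy => exact Submodule.add_mem _ (hx trivial) (hy trivial)
  | smul b x _ hx =>
    obtain ⟨a, rfl⟩ := hAB b
    rw [algebraMap_smul]
    exact Submodule.smul_mem _ _ (hx trivial)

theorem coe_map {R : Type*} [CommRing R] {N N' : Type*} [AddCommGroup N] [Module R N]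
    [AddCommGroup N'] [Module R N'] (q : ℕ) (g : N →ₗ[R] N') (y : ⋀[R]^q N) :
    ((exteriorPower.map q g y : ⋀[R]^q N') : ExteriorAlgebra R N') =
      ExteriorAlgebra.map g (y : ExteriorAlgebra R N) := by
  have : (⋀[R]^q N').subtype ∘ₗ exteriorPower.map q g =
      (ExteriorAlgebra.map g).toLinearMap ∘ₗ (⋀[R]^q N).subtype := by
    apply ιMulti_induction
    intro m
    simp only [LinearMap.comp_apply, exteriorPower.map_apply_ιMulti]
    change ExteriorAlgebra.ιMulti R q (g ∘ m) = ExteriorAlgebra.map g (ExteriorAlgebra.ιMulti R q m)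
    rw [ExteriorAlgebra.map_apply_ιMulti]
  exact LinearMap.congr_fun this y

/-- If the contraction of `e` with a functional is `s`, then `e ∧ x = 0` forces `s x = 0`
modulo `e`. -/
theorem smul_extMap_eq_zero {N' : Type*} [AddCommGroup N'] [Module A N'] [Module B N']
    [IsScalarTower A B N'] (q : ℕ) (j : M →ₗ[A] N) (g : N →ₗ[B] N') (e : M) (hge : g (j e) = 0)
    (lam : Module.Dual B N) (x : ⋀[A]^q M) (hx : extMap B (q + 1) j (wedge e q x) = 0) :
    lam (j e) • extMap B q ((g.restrictScalars A) ∘ₗ j) x = 0 := by
  have h1 := extMap_wedge_coe (B := B) e q j x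
  rw [hx] at h1
  have h2 := congrArg (CliffordAlgebra.contractLeft lam) h1
  have h3 : CliffordAlgebra.contractLeft lam (ExteriorAlgebra.ι B (j e) *
      ((extMap B q j x : ⋀[B]^q N) : ExteriorAlgebra B N)) =
      lam (j e) • ((extMap B q j x : ⋀[B]^q N) : ExteriorAlgebra B N) -
        ExteriorAlgebra.ι B (j e) * CliffordAlgebra.contractLeft lam
          ((extMap B q j x : ⋀[B]^q N) : ExteriorAlgebra B N) :=
    CliffordAlgebra.contractLeft_ι_mul lam (j e) _
  rw [h3] at h2
  rw [ZeroMemClass.coe_zero, map_zero] at h2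
  have h4 := congrArg (ExteriorAlgebra.map g) h2
  rw [map_zero, map_sub, map_mul, ExteriorAlgebra.map_apply_ι, hge, map_zero, zero_mul, sub_zero,
    map_smul] at h4
  apply Subtype.ext
  rw [← map_extMap]
  rw [ZeroMemClass.coe_zero]
  have h5 : ((exteriorPower.map q g (extMap B q j x) : ⋀[B]^q N') : ExteriorAlgebra B N') =
      ExteriorAlgebra.map g ((extMap B q j x : ⋀[B]^q N) : ExteriorAlgebra B N) :=
    coe_map q g _
  change lam (j e) • ((exteriorPower.map q g (extMap B q j x) : ⋀[B]^q N') : ExteriorAlgebra B N')
    = 0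
  rw [h5]
  exact h4.symm

/-- An `A`-alternating map to a `B`-module which vanishes as soon as one entry is in the kernel of
a surjection `f : M → N` descends. -/
theorem descend {Q : Type*} [AddCommGroup Q] [Module A Q] [Module B Q] [IsScalarTower A B Q]
    (hAB : Function.Surjective (algebraMap A B)) (f : M →ₗ[A] N) (hf : Function.Surjective f)
    (p : ℕ) (ρ : M [⋀^Fin p]→ₗ[A] Q)
    (hρ : ∀ (m : Fin p → M) (i : Fin p), f (m i) = 0 → ρ m = 0) :
    ∃ g : ⋀[B]^p N →ₗ[B] Q, ∀ x : ⋀[A]^p M,
      g (extMap B p f x) = exteriorPower.alternatingMapLinearEquiv ρ x := by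
  classical
  -- changing entries within their classes
  have hone : ∀ (m : Fin p → M) (i : Fin p) (y : M), f y = f (m i) →
      ρ (Function.update m i y) = ρ m := by
    intro m i y hy
    rw [← sub_eq_zero]
    have h1 : ρ (Function.update m i (y - m i)) = 0 := by
      apply hρ _ i
      simp [hy]
    have h2 := ρ.map_update_sub m i y (m i)
    rw [Function.update_eq_self] at h2
    rw [← h2, h1]
  have hall : ∀ (T : Finset (Fin p)) (m m' : Fin p → M), (∀ i, f (m' i) = f (m i)) →
      ρ (T.piecewise m' m) = ρ m := by
    intro T m m' h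
    induction T using Finset.induction_on with
    | empty => simp
    | insert i T hi ih =>
      rw [Finset.piecewise_insert, hone _ i, ih]
      rw [Finset.piecewise_eq_of_notMem _ _ _ hi, h]
  have hwd : ∀ (m m' : Fin p → M), (∀ i, f (m' i) = f (m i)) → ρ m' = ρ m := by
    intro m m' h
    have := hall Finset.univ m m' h
    rwa [Finset.piecewise_univ] at this
  let s : N → M := Function.surjInv hf
  have hs : ∀ n, f (s n) = n := Function.surjInv_eq hf
  let μ : N [⋀^Fin p]→ₗ[B] Q :=
    { toFun := fun n ↦ ρ (fun i ↦ s (n i))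
      map_update_add' := by
        intro _ n i x y
        have h1 : ρ (fun i' ↦ s (Function.update n i (x + y) i')) =
            ρ (Function.update (fun i' ↦ s (n i')) i (s x + s y)) := by
          apply hwd
          intro i'
          by_cases h : i' = i
          · subst h; simp [hs]
          · simp [Function.update_of_ne h]
        have h2 : ρ (fun i' ↦ s (Function.update n i x i')) =
            ρ (Function.update (fun i' ↦ s (n i')) i (s x)) := by
          apply hwd
          intro i'
          by_cases h : i' = i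
          · subst h; simp [hs]
          · simp [Function.update_of_ne h]
        have h3 : ρ (fun i' ↦ s (Function.update n i y i')) =
            ρ (Function.update (fun i' ↦ s (n i')) i (s y)) := by
          apply hwd
          intro i'
          by_cases h : i' = i
          · subst h; simp [hs]
          · simp [Function.update_of_ne h]
        rw [h1, h2, h3, ρ.map_update_add]
      map_update_smul' := by
        intro _ n i b x
        obtain ⟨a, rfl⟩ := hAB b
        have h1 : ρ (fun i' ↦ s (Function.update n i (algebraMap A B a • x) i')) =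
            ρ (Function.update (fun i' ↦ s (n i')) i (a • s x)) := by
          apply hwd
          intro i'
          by_cases h : i' = i
          · subst h; simp [hs]
          · simp [Function.update_of_ne h]
        have h2 : ρ (fun i' ↦ s (Function.update n i x i')) =
            ρ (Function.update (fun i' ↦ s (n i')) i (s x)) := by
          apply hwd
          intro i'
          by_cases h : i' = i
          · subst h; simp [hs]
          · simp [Function.update_of_ne h]
        rw [h1, h2, ρ.map_update_smul, algebraMap_smul]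
      map_eq_zero_of_eq' := by
        intro n i j hij hne
        exact ρ.map_eq_zero_of_eq _ (by simp [hij]) hne }
  refine ⟨exteriorPower.alternatingMapLinearEquiv μ, fun x ↦ ?_⟩
  have : ((exteriorPower.alternatingMapLinearEquiv μ).restrictScalars A) ∘ₗ extMap B p f =
      exteriorPower.alternatingMapLinearEquiv ρ := by
    apply ιMulti_induction
    intro m
    rw [LinearMap.comp_apply, extMap_ιMulti, LinearMap.coe_restrictScalars,
      exteriorPower.alternatingMapLinearEquiv_apply_ιMulti,
      exteriorPower.alternatingMapLinearEquiv_apply_ιMulti]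
    change ρ (fun i ↦ s (f (m i))) = ρ m
    apply hwd
    intro i
    rw [hs]
  exact LinearMap.congr_fun this x

end

end Pool.Agent.H71
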