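import Mathlib

open scoped TensorProduct

namespace Pool.Agent.H71

universe u v w

/-- Multiplication by `a` on `M` factors through a finite free module. -/
def FactorsFree {A : Type u} [CommRing A] (M : Type v) [AddCommGroup M] [Module A M] (a : A) :
    Prop :=
  ∃ (n : ℕ) (α : M →ₗ[A] (Fin n → A)) (β : (Fin n → A) →ₗ[A] M),
    β ∘ₗ α = a • LinearMap.id

theorem FactorsFree.of_localized {A : Type u} [CommRing A] {M : Type v} [AddCommGroup M]
    [Module A M] [Module.FinitePresentation A M] (S : Submonoid A) (B : Type w) [CommRing B]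
    [Algebra A B] [IsLocalization S B] {M' : Type*} [AddCommGroup M'] [Module A M'] [Module B M']
    [IsScalarTower A B M'] (f : M →ₗ[A] M') [IsLocalizedModule S f] [Module.Finite B M']
    [Module.Projective B M'] : ∃ s ∈ S, FactorsFree M s := by
  obtain ⟨n, π, hπ⟩ := Module.Finite.exists_fin' B M'
  obtain ⟨σ, hσ⟩ := Module.projective_lifting_property π (LinearMap.id) hπ
  let fn : (Fin n → A) →ₗ[A] (Fin n → B) :=
    LinearMap.pi fun i ↦ (Algebra.linearMap A B) ∘ₗ LinearMap.proj i
  have : IsLocalizedModule S fn := IsLocalizedModule.pi S (fun _ ↦ Algebra.linearMap A B)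
  obtain ⟨α, s1, h1⟩ := Module.FinitePresentation.exists_lift_of_isLocalizedModule S fn
    ((σ.restrictScalars A) ∘ₗ f)
  obtain ⟨β, s2, h2⟩ := Module.FinitePresentation.exists_lift_of_isLocalizedModule S f
    ((π.restrictScalars A) ∘ₗ fn)
  have key : f ∘ₗ (β ∘ₗ α) = f ∘ₗ ((s2 * s1 : S) • (LinearMap.id : M →ₗ[A] M)) := by
    ext m
    have e1 : ∀ x, f (β x) = s2 • π (fn x) := fun x ↦ by
      simpa using LinearMap.congr_fun h2 x
    have e2 : ∀ x, fn (α x) = s1 • σ (f x) := fun x ↦ by
      simpa using LinearMap.congr_fun h1 x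
    have e3 : ∀ x, π (σ x) = x := fun x ↦ by
      simpa using LinearMap.congr_fun hσ x
    simp only [LinearMap.comp_apply, e1, e2, LinearMap.smul_apply, LinearMap.id_apply]
    have e4 : π (s1 • σ (f m)) = s1 • π (σ (f m)) := by
      change (π.restrictScalars A) ((s1 : A) • σ (f m)) = (s1 : A) • π (σ (f m))
      rw [map_smul]; rfl
    rw [e4, e3, smul_smul]
    change ((s2 * s1 : S) : A) • f m = f (((s2 * s1 : S) : A) • m)
    rw [map_smul]
  obtain ⟨s3, h3⟩ := Module.Finite.exists_smul_of_comp_eq_of_isLocalizedModule S f _ _ key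
  refine ⟨(s3 * (s2 * s1) : S), (s3 * (s2 * s1)).2, n, α, (s3 : A) • β, ?_⟩
  ext m
  have h4 := LinearMap.congr_fun h3 m
  simp only [LinearMap.smul_apply, LinearMap.comp_apply, LinearMap.id_apply] at h4 ⊢
  change (s3 : A) • β (α m) = ((s3 : A) * ((s2 * s1 : S) : A)) • m
  rw [mul_smul]
  exact h4

theorem exteriorPower_map_smul {A : Type u} [CommRing A] {M : Type v} [AddCommGroup M] [Module A M]
    (n : ℕ) (a : A) :
    exteriorPower.map n (a • (LinearMap.id : M →ₗ[A] M)) = a ^ n • LinearMap.id := by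
  apply exteriorPower.linearMap_ext
  ext m : 1
  simp only [LinearMap.compAlternatingMap_apply, exteriorPower.map_apply_ιMulti,
    LinearMap.smul_apply, LinearMap.id_apply]
  have : ((a • (LinearMap.id : M →ₗ[A] M)) ∘ m) = fun i ↦ (fun _ : Fin n ↦ a) i • m i := by
    ext i; simp
  rw [this]
  have h2 := (exteriorPower.ιMulti A n (M := M)).toMultilinearMap.map_smul_univ (fun _ ↦ a) m
  simp only [Finset.prod_const, Finset.card_univ, Fintype.card_fin] at h2
  exact h2

theorem FactorsFree.exteriorPower {A : Type u} [CommRing A] [Nontrivial A] {M : Type v}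
    [AddCommGroup M] [Module A M] {a : A} (h : FactorsFree M a) (p : ℕ) :
    FactorsFree (⋀[A]^p M) (a ^ p) := by
  obtain ⟨n, α, β, hαβ⟩ := h
  let F := ⋀[A]^p (Fin n → A)
  let e : F ≃ₗ[A] (Fin (Module.finrank A F) → A) := (Module.finBasis A F).equivFun
  refine ⟨Module.finrank A F, e.toLinearMap ∘ₗ exteriorPower.map p α,
    exteriorPower.map p β ∘ₗ e.symm.toLinearMap, ?_⟩
  refine LinearMap.ext fun x ↦ ?_
  simp only [LinearMap.comp_apply, LinearEquiv.coe_coe, LinearEquiv.symm_apply_apply]
  rw [← exteriorPower_map_smul, ← hαβ, exteriorPower.map_comp]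
  rfl

end Pool.Agent.H71
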