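import Mathlib
import Pool.Agent.H71.Hartogs
import Pool.Agent.H71.Factor

namespace Pool.Agent.H71

universe u v w

section

variable {A : Type u} [CommRing A] (I : Ideal A)

/-- The two-step extension property over `A ⧸ I`. -/
def SProp (W : Type v) [AddCommGroup W] [Module A W] : Prop :=
  (∀ a : A, a ∉ I → ∀ w : W, a • w = 0 → w = 0) ∧
  ∀ J : Ideal (A ⧸ I), BigIdeal J → ∀ f : A → W,
    (∀ a b : A, Ideal.Quotient.mk I a ∈ J → Ideal.Quotient.mk I b ∈ J → a • f b = b • f a) →
    ∃ w : W, ∀ a : A, Ideal.Quotient.mk I a ∈ J → f a = a • w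

variable {I}

theorem SProp.extension {W₁ : Type v} {W : Type w} {W₂ : Type*} [AddCommGroup W₁] [Module A W₁]
    [AddCommGroup W] [Module A W] [AddCommGroup W₂] [Module A W₂] (ι : W₁ →ₗ[A] W)
    (π : W →ₗ[A] W₂) (hι : Function.Injective ι) (hπ : Function.Surjective π)
    (hex : Function.Exact ι π) (h1 : SProp I W₁) (h2 : SProp I W₂) : SProp I W := by
  classical
  refine ⟨?_, ?_⟩
  · intro a ha w haw
    have hw : π w = 0 := by
      apply h2.1 a ha
      rw [← map_smul, haw, map_zero]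
    obtain ⟨n, rfl⟩ := (hex w).1 hw
    have : n = 0 := by
      apply h1.1 a ha
      apply hι
      rw [map_smul, haw, map_zero]
    rw [this, map_zero]
  · intro J hJ f hf
    obtain ⟨n2, hn2⟩ := h2.2 J hJ (fun a ↦ π (f a)) (fun a b ha hb ↦ by
      rw [← map_smul, ← map_smul, hf a b ha hb])
    obtain ⟨w0, rfl⟩ := hπ n2
    have hker : ∀ a, Ideal.Quotient.mk I a ∈ J → ∃ n, ι n = f a - a • w0 := by
      intro a ha
      apply (hex _).1
      rw [map_sub, map_smul, hn2 a ha, sub_self]
    choose! g hg using hker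
    obtain ⟨n1, hn1⟩ := h1.2 J hJ g (fun a b ha hb ↦ by
      apply hι
      rw [map_smul, map_smul, hg a ha, hg b hb, smul_sub, smul_sub, hf a b ha hb, smul_smul,
        smul_smul, mul_comm])
    refine ⟨w0 + ι n1, fun a ha ↦ ?_⟩
    rw [smul_add, ← map_smul, ← hn1 a ha, hg a ha]
    abel

theorem SProp.of_reflexive [IsDomain (A ⧸ I)] [IsNoetherianRing (A ⧸ I)]
    [IsIntegrallyClosed (A ⧸ I)] (W : Type v) [AddCommGroup W] [Module A W] [Module (A ⧸ I) W]
    [IsScalarTower A (A ⧸ I) W] [Module.IsReflexive (A ⧸ I) W] : SProp I W := by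
  classical
  have hsmul : ∀ (a : A) (w : W), a • w = Ideal.Quotient.mk I a • w := fun a w ↦ by
    rw [← one_smul (A ⧸ I) w, ← smul_assoc]
    simp [Algebra.smul_def]
  have hinj : ∀ w : W, (∀ n : Module.Dual (A ⧸ I) W, n w = 0) → w = 0 := by
    intro w hw
    apply (Module.bijective_dual_eval (A ⧸ I) W).1
    ext n
    simpa using hw n
  have htf : ∀ a : A, a ∉ I → ∀ w : W, a • w = 0 → w = 0 := by
    intro a ha w hw
    apply hinj
    intro n
    have h1 : n (a • w) = Ideal.Quotient.mk I a * n w := by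
      rw [hsmul, map_smul, smul_eq_mul]
    rw [hw, map_zero] at h1
    rcases mul_eq_zero.1 h1.symm with h | h
    · exact absurd (Ideal.Quotient.eq_zero_iff_mem.1 h) ha
    · exact h
  refine ⟨htf, ?_⟩
  intro J hJ f hf
  -- lifts
  let s : (A ⧸ I) → A := Function.surjInv Ideal.Quotient.mk_surjective
  have hs : ∀ b, Ideal.Quotient.mk I (s b) = b := Function.surjInv_eq _
  have hc : ∀ n : Module.Dual (A ⧸ I) W, ∃ c : A ⧸ I, ∀ j : J, n (f (s j)) = (j : A ⧸ I) * c := by
    intro n
    apply hartogs J hJ (fun j ↦ n (f (s j)))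
    intro i j
    have := hf (s i) (s j) (by rw [hs]; exact i.2) (by rw [hs]; exact j.2)
    rw [hsmul, hsmul, hs, hs] at this
    have h2 := congrArg n this
    rwa [map_smul, map_smul, smul_eq_mul, smul_eq_mul] at h2
  choose c hc using hc
  obtain ⟨j0, hj0⟩ : ∃ j0 : J, (j0 : A ⧸ I) ≠ 0 := by
    have := hJ ⊥ goodPrime_bot
    rw [SetLike.not_le_iff_exists] at this
    obtain ⟨j0, hj0, h⟩ := this
    exact ⟨⟨j0, hj0⟩, by simpa using h⟩
  let ξ : Module.Dual (A ⧸ I) (Module.Dual (A ⧸ I) W) :=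
    { toFun := c
      map_add' := fun n n' ↦ by
        apply mul_left_cancel₀ hj0
        rw [mul_add, ← hc, ← hc, ← hc]; rfl
      map_smul' := fun b n ↦ by
        apply mul_left_cancel₀ hj0
        rw [← hc]
        simp only [LinearMap.smul_apply, smul_eq_mul, RingHom.id_apply]
        rw [hc]; ring }
  obtain ⟨w, hw⟩ := (Module.bijective_dual_eval (A ⧸ I) W).2 ξ
  have hw' : ∀ n : Module.Dual (A ⧸ I) W, n w = c n := fun n ↦ by
    have := LinearMap.congr_fun hw n
    rw [Module.Dual.eval_apply] at this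
    exact this
  have hfs : ∀ j : J, f (s j) = s j • w := by
    intro j
    rw [← sub_eq_zero]
    apply hinj
    intro n
    rw [map_sub, hc, hsmul, map_smul, hw', hs, smul_eq_mul, sub_self]
  refine ⟨w, fun a ha ↦ ?_⟩
  -- compare `a` with the lift of its class
  have h3 := hf a (s j0) ha (by rw [hs]; exact j0.2)
  rw [hfs j0] at h3
  rw [← sub_eq_zero]
  have h4 : s j0 ∉ I := by
    intro h
    apply hj0
    rw [← hs (j0 : A ⧸ I)]
    exact Ideal.Quotient.eq_zero_iff_mem.2 h
  apply htf _ h4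
  rw [smul_sub, ← h3, smul_smul, smul_smul, mul_comm, sub_self]

/-- The descent of reflexivity from the hypersurface to the ambient local ring. -/
theorem reflexive_of_sprop [IsDomain A] [IsLocalRing A] [IsNoetherianRing A] (t : A) (ht0 : t ≠ 0)
    (htm : t ∈ IsLocalRing.maximalIdeal A) (hI : I = Ideal.span {t}) [I.IsPrime]
    (T : Type v) [AddCommGroup T] [Module A T] [Module.Finite A T]
    (hS : SProp I (T ⧸ (I • ⊤ : Submodule A T)))
    (hF : ∀ (P : Ideal (A ⧸ I)) [P.IsPrime], GoodPrime P →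
      ∃ a : A, Ideal.Quotient.mk I a ∉ P ∧ FactorsFree T a) :
    Module.IsReflexive A T := by
  classical
  have hjac : I ≤ (⊥ : Ideal A).jacobson := by
    rw [IsLocalRing.jacobson_eq_maximalIdeal _ bot_ne_top, hI,
      Ideal.span_singleton_le_iff_mem]
    exact htm
  have hIsmul : ∀ (X : Type (max u v)) [AddCommGroup X] [Module A X] (x : X),
      x ∈ (I • ⊤ : Submodule A X) ↔ ∃ y, x = t • y := by
    intro X _ _ x
    rw [hI, Submodule.ideal_span_singleton_smul]
    constructor
    · rintro ⟨y, -, rfl⟩; exact ⟨y, rfl⟩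
    · rintro ⟨y, rfl⟩; exact ⟨y, trivial, rfl⟩
  have hIsmul' : ∀ (x : T),
      x ∈ (I • ⊤ : Submodule A T) ↔ ∃ y, x = t • y := by
    intro x
    rw [hI, Submodule.ideal_span_singleton_smul]
    constructor
    · rintro ⟨y, -, rfl⟩; exact ⟨y, rfl⟩
    · rintro ⟨y, rfl⟩; exact ⟨y, trivial, rfl⟩
  -- an element outside `I` for which multiplication factors through a free module
  obtain ⟨a0, ha0, n0, α0, β0, hαβ0⟩ := hF ⊥ goodPrime_bot
  have ha0I : a0 ∉ I := by
    intro h
    exact ha0 (by rw [Ideal.Quotient.eq_zero_iff_mem.2 h]; exact Ideal.zero_mem _)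
  have ha0' : ∀ x : T, β0 (α0 x) = a0 • x := fun x ↦ by
    simpa using LinearMap.congr_fun hαβ0 x
  -- torsion vanishes
  have htor : Submodule.torsion A T = ⊥ := by
    rw [eq_bot_iff]
    refine Submodule.le_of_le_smul_of_le_jacobson_bot (I := I) (IsNoetherian.noetherian _) hjac ?_
    intro x hx
    apply Submodule.mem_sup_right
    obtain ⟨c, hc⟩ := (Submodule.mem_torsion_iff x).1 hx
    have hc0 : (c : A) ≠ 0 := nonZeroDivisors.coe_ne_zero c
    have hax : a0 • x = 0 := by
      rw [← ha0']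
      have : α0 x = 0 := by
        have h1 : (c : A) • α0 x = 0 := by
          rw [← map_smul]
          have : (c : A) • x = 0 := hc
          rw [this, map_zero]
        exact (smul_eq_zero.1 h1).resolve_left hc0
      rw [this, map_zero]
    have hx1 : (Submodule.Quotient.mk x : T ⧸ (I • ⊤ : Submodule A T)) = 0 := by
      apply hS.1 a0 ha0I
      rw [← Submodule.Quotient.mk_smul, hax, Submodule.Quotient.mk_zero]
    rw [Submodule.Quotient.mk_eq_zero, hIsmul'] at hx1
    obtain ⟨y, rfl⟩ := hx1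
    refine Submodule.smul_mem_smul (by rw [hI]; exact Ideal.mem_span_singleton_self t) ?_
    rw [Submodule.mem_torsion_iff]
    refine ⟨⟨(c : A) * t, mem_nonZeroDivisors_of_ne_zero (mul_ne_zero hc0 ht0)⟩, ?_⟩
    have : (c : A) • t • y = 0 := hc
    rw [smul_smul] at this
    exact this
  have htf : ∀ (c : A), c ≠ 0 → ∀ x : T, c • x = 0 → x = 0 := by
    intro c hc x hx
    have : x ∈ Submodule.torsion A T :=
      (Submodule.mem_torsion_iff x).2 ⟨⟨c, mem_nonZeroDivisors_of_ne_zero hc⟩, hx⟩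
    rw [htor] at this
    simpa using this
  have ha00 : a0 ≠ 0 := by
    rintro rfl
    exact ha0I (Ideal.zero_mem _)
  have hinj : Function.Injective (Module.Dual.eval A T) := by
    rw [injective_iff_map_eq_zero]
    intro x hx
    apply htf a0 ha00
    rw [← ha0']
    have : α0 x = 0 := by
      ext i
      have h2 := LinearMap.congr_fun hx (LinearMap.proj i ∘ₗ α0)
      simpa using h2
    rw [this, map_zero]
  refine ⟨⟨hinj, ?_⟩⟩
  rw [← LinearMap.range_eq_top, eq_top_iff]
  refine Submodule.le_of_le_smul_of_le_jacobson_bot (I := I) (IsNoetherian.noetherian _) hjac ?_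
  intro ξ _
  -- the ideal of elements moving `ξ` into the image
  let J' : Ideal A := Submodule.comap (LinearMap.toSpanSingleton A _ ξ)
    (LinearMap.range (Module.Dual.eval A T))
  have hJ' : ∀ a, a ∈ J' ↔ ∃ x, Module.Dual.eval A T x = a • ξ := fun a ↦ Iff.rfl
  let J : Ideal (A ⧸ I) := J'.map (Ideal.Quotient.mk I)
  have hJmem : ∀ b : A ⧸ I, b ∈ J ↔ ∃ a ∈ J', Ideal.Quotient.mk I a = b := fun b ↦
    Ideal.mem_map_iff_of_surjective _ Ideal.Quotient.mk_surjective
  have hfac : ∀ a : A, FactorsFree T a → a ∈ J' := by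
    rintro a ⟨n, α, β, hαβ⟩
    rw [hJ']
    refine ⟨β (fun i ↦ ξ (LinearMap.proj i ∘ₗ α)), ?_⟩
    ext ν
    rw [Module.Dual.eval_apply, LinearMap.smul_apply]
    have h1 : a • ν = ∑ i, ((ν ∘ₗ β) (fun j ↦ if i = j then 1 else 0)) •
        (LinearMap.proj i ∘ₗ α : T →ₗ[A] A) := by
      ext x
      have h2 : β (α x) = a • x := by simpa using LinearMap.congr_fun hαβ x
      rw [LinearMap.smul_apply, ← map_smul, ← h2]
      change (ν ∘ₗ β) (α x) = _
      rw [LinearMap.pi_apply_eq_sum_univ (ν ∘ₗ β) (α x), LinearMap.sum_apply]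
      refine Finset.sum_congr rfl fun i _ ↦ ?_
      simp [mul_comm]
    rw [← map_smul, h1, map_sum]
    change (ν ∘ₗ β) (fun i ↦ ξ (LinearMap.proj i ∘ₗ α)) = _
    rw [LinearMap.pi_apply_eq_sum_univ (ν ∘ₗ β)]
    refine Finset.sum_congr rfl fun i _ ↦ ?_
    rw [map_smul]
    simp only [smul_eq_mul]
    rw [mul_comm]
  have hbig : BigIdeal J := by
    intro P _ hP hle
    obtain ⟨a, ha, hfa⟩ := hF P hP
    exact ha (hle ((hJmem _).2 ⟨a, hfac a hfa, rfl⟩))
  have hWI : ∀ (a b : A) (w : T ⧸ (I • ⊤ : Submodule A T)),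
      Ideal.Quotient.mk I a = Ideal.Quotient.mk I b → a • w = b • w := by
    intro a b w hab
    rw [← sub_eq_zero, ← sub_smul]
    obtain ⟨x, rfl⟩ := Submodule.Quotient.mk_surjective _ w
    rw [← Submodule.Quotient.mk_smul, Submodule.Quotient.mk_eq_zero]
    exact Submodule.smul_mem_smul (Ideal.Quotient.eq.1 hab) trivial
  -- choice of lifts and of preimages
  have hch : ∀ a : A, Ideal.Quotient.mk I a ∈ J → ∃ a' x, Ideal.Quotient.mk I a' =
      Ideal.Quotient.mk I a ∧ Module.Dual.eval A T x = a' • ξ := by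
    intro a ha
    obtain ⟨a', ha', h⟩ := (hJmem _).1 ha
    obtain ⟨x, hx⟩ := (hJ' a').1 ha'
    exact ⟨a', x, h, hx⟩
  choose! l x hl hx using hch
  obtain ⟨w, hw⟩ := hS.2 J hbig (fun a ↦ Submodule.Quotient.mk (x a)) (fun a b ha hb ↦ by
    have h1 : l a • x b = l b • x a := by
      apply hinj
      rw [map_smul, map_smul, hx a ha, hx b hb, smul_smul, smul_smul, mul_comm]
    rw [← hWI (l a) a _ (hl a ha), ← hWI (l b) b _ (hl b hb), ← Submodule.Quotient.mk_smul,
      ← Submodule.Quotient.mk_smul, h1])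
  obtain ⟨y, rfl⟩ := Submodule.Quotient.mk_surjective _ w
  -- an element of `J` which is nonzero
  have ha0J : Ideal.Quotient.mk I a0 ∈ J := (hJmem _).2 ⟨a0, hfac a0 ⟨n0, α0, β0, hαβ0⟩, rfl⟩
  have h5 := hw a0 ha0J
  rw [← hWI (l a0) a0 _ (hl a0 ha0J), ← Submodule.Quotient.mk_smul, ← sub_eq_zero,
    ← Submodule.Quotient.mk_sub, Submodule.Quotient.mk_eq_zero, hIsmul'] at h5
  obtain ⟨z, hz⟩ := h5
  have hla0 : l a0 ∉ I := by
    intro h
    apply ha0I
    have := hl a0 ha0J
    rw [Ideal.Quotient.eq_zero_iff_mem.2 h] at this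
    exact Ideal.Quotient.eq_zero_iff_mem.1 this.symm
  have hζ : ∀ ν : Module.Dual A T, ∃ c, (ξ - Module.Dual.eval A T y) ν = t * c := by
    intro ν
    have h6 : l a0 * (ξ - Module.Dual.eval A T y) ν = t * ν z := by
      have h7 : l a0 • (ξ - Module.Dual.eval A T y) = t • Module.Dual.eval A T z := by
        rw [smul_sub, ← hx a0 ha0J, ← map_smul, ← map_sub, hz, map_smul]
      have h8 := LinearMap.congr_fun h7 ν
      simpa using h8
    have h9 : l a0 * (ξ - Module.Dual.eval A T y) ν ∈ I := by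
      rw [h6, hI]
      exact Ideal.mul_mem_right _ _ (Ideal.mem_span_singleton_self t)
    have h10 := (Ideal.IsPrime.mem_or_mem inferInstance h9).resolve_left hla0
    rw [hI, Ideal.mem_span_singleton] at h10
    exact h10
  choose c hc using hζ
  let ζ : Module.Dual A (Module.Dual A T) :=
    { toFun := c
      map_add' := fun ν ν' ↦ by
        apply mul_left_cancel₀ ht0
        rw [mul_add, ← hc, ← hc, ← hc, map_add]
      map_smul' := fun b ν ↦ by
        apply mul_left_cancel₀ ht0
        rw [← hc, map_smul, hc]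
        simp only [smul_eq_mul, RingHom.id_apply]
        ring }
  have h11 : ξ = Module.Dual.eval A T y + t • ζ := by
    ext ν
    have := hc ν
    rw [LinearMap.sub_apply, sub_eq_iff_eq_add'] at this
    rw [this]
    rfl
  rw [h11]
  refine Submodule.add_mem_sup ⟨y, rfl⟩ ?_
  exact Submodule.smul_mem_smul (by rw [hI]; exact Ideal.mem_span_singleton_self t) trivial

end

end Pool.Agent.H71
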