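import Mathlib
import Pool.Agent.H71.SProp
import Pool.Agent.H71.Multi

open scoped TensorProduct

namespace Pool.Agent.H71

section

variable {A : Type*} [CommRing A] (I : Ideal A) (t : A) (hI : I = Ideal.span {t})
variable {M : Type*} [AddCommGroup M] [Module A M]
variable {N : Type*} [AddCommGroup N] [Module A N] [Module (A ⧸ I) N] [IsScalarTower A (A ⧸ I) N]

theorem extMap_eq_zero_of_mem (p : ℕ) (j : M →ₗ[A] N) (x : ⋀[A]^p M)
    (hx : x ∈ (I • ⊤ : Submodule A (⋀[A]^p M))) : extMap (A ⧸ I) p j x = 0 := by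
  have hle : (I • ⊤ : Submodule A (⋀[A]^p M)) ≤ LinearMap.ker (extMap (A ⧸ I) p j) := by
    rw [Submodule.smul_le]
    intro a ha y _
    rw [LinearMap.mem_ker, map_smul]
    have : ∀ z : ⋀[A ⧸ I]^p N, a • z = algebraMap A (A ⧸ I) a • z := fun z ↦
      (algebraMap_smul (A ⧸ I) a z).symm
    rw [this, Ideal.Quotient.algebraMap_eq, Ideal.Quotient.eq_zero_iff_mem.2 ha, zero_smul]
  exact hle hx

/-- The reduction of `⋀^p M → ⋀^p N` modulo `I`. -/
noncomputable def redMap (p : ℕ) (f : M →ₗ[A] N) :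
    (⋀[A]^p M ⧸ (I • ⊤ : Submodule A (⋀[A]^p M))) →ₗ[A] ⋀[A ⧸ I]^p N :=
  Submodule.liftQ _ (extMap (A ⧸ I) p f) (fun x hx ↦ extMap_eq_zero_of_mem I p f x hx)

theorem redMap_mk (p : ℕ) (f : M →ₗ[A] N) (x : ⋀[A]^p M) :
    redMap I p f (Submodule.Quotient.mk x) = extMap (A ⧸ I) p f x := rfl

theorem mem_of_extMap_eq_zero {B : Type*} [CommRing B] [Algebra A B] {N : Type*} [AddCommGroup N]
    [Module A N] [Module B N] [IsScalarTower A B N] (hAB : Function.Surjective (algebraMap A B))
    {E : Type*} [AddCommGroup E] [Module A E] [Module B E] [IsScalarTower A B E]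
    (f : M →ₗ[A] N) (hf : Function.Surjective f) (p : ℕ)
    (U : Submodule B E) (c : ⋀[A]^p M →ₗ[A] E)
    (hU : ∀ (m : Fin p → M) (i : Fin p), f (m i) = 0 →
      c (exteriorPower.ιMulti A p m) ∈ U) (x : ⋀[A]^p M)
    (hx : extMap B p f x = 0) : c x ∈ U := by
  let κ : ⋀[A]^p M →ₗ[A] (E ⧸ U) := (U.mkQ.restrictScalars A) ∘ₗ c
  have hκ : ∀ y, κ y = 0 ↔ c y ∈ U := by
    intro y
    exact Submodule.Quotient.mk_eq_zero U
  obtain ⟨g, hg⟩ := descend (A := A) (B := B) (Q := E ⧸ U)
    hAB f hf p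
    (κ.compAlternatingMap (exteriorPower.ιMulti A p)) (by
      intro m i hi
      rw [LinearMap.compAlternatingMap_apply, hκ]
      exact hU m i hi)
  have h7 := hg x
  rw [hx, map_zero] at h7
  have h8 : exteriorPower.alternatingMapLinearEquiv
      (κ.compAlternatingMap (exteriorPower.ιMulti A p)) = κ := by
    apply ιMulti_induction
    intro m
    rw [exteriorPower.alternatingMapLinearEquiv_apply_ιMulti, LinearMap.compAlternatingMap_apply]
  rw [h8] at h7
  exact (hκ x).1 h7.symm

include hI in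
theorem exists_conormal (f : M →ₗ[A] N) (hf : Function.Surjective f) (e : M)
    (hker : ∀ x, f x = 0 → ∃ (a : A) (z : M), x = a • e + t • z) (q : ℕ) :
    ∃ ψ : ⋀[A ⧸ I]^q N →ₗ[A ⧸ I] (⋀[A]^(q + 1) M ⧸ (I • ⊤ : Submodule A (⋀[A]^(q + 1) M))),
      (∀ x : ⋀[A]^q M, ψ (extMap (A ⧸ I) q f x) = Submodule.Quotient.mk (wedge e q x)) ∧
      (∀ y, redMap I (q + 1) f y = 0 → ∃ n, ψ n = y) := by
  classical
  have hmemI : ∀ (x : ⋀[A]^(q + 1) M), t • x ∈ (I • ⊤ : Submodule A (⋀[A]^(q + 1) M)) := by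
    intro x
    exact Submodule.smul_mem_smul (by rw [hI]; exact Ideal.mem_span_singleton_self t) trivial
  obtain ⟨ψ, hψ⟩ := descend (A := A) (B := A ⧸ I)
    (Q := ⋀[A]^(q + 1) M ⧸ (I • ⊤ : Submodule A (⋀[A]^(q + 1) M)))
    Ideal.Quotient.mk_surjective f hf q
    ((Submodule.mkQ (I • ⊤ : Submodule A (⋀[A]^(q + 1) M))).compAlternatingMap
      ((exteriorPower.ιMulti A (q + 1)).curryLeft e)) (by
      intro m i hi
      obtain ⟨a, z, hm⟩ := hker _ hi
      have h1 : ((exteriorPower.ιMulti A (q + 1)).curryLeft e) m =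
          t • ((exteriorPower.ιMulti A (q + 1)).curryLeft e) (Function.update m i z) := by
        conv_lhs => rw [← Function.update_eq_self i m, hm, AlternatingMap.map_update_add,
          AlternatingMap.map_update_smul, AlternatingMap.map_update_smul]
        have h2 : ((exteriorPower.ιMulti A (q + 1)).curryLeft e) (Function.update m i e) = 0 := by
          rw [AlternatingMap.curryLeft_apply_apply]
          apply AlternatingMap.map_eq_zero_of_eq _ _ (i := 0) (j := i.succ)
          · simp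
          · exact (Fin.succ_ne_zero i).symm
        rw [h2, smul_zero, zero_add]
      rw [LinearMap.compAlternatingMap_apply, h1, Submodule.mkQ_apply,
        Submodule.Quotient.mk_eq_zero]
      exact hmemI _)
  have hψ' : ∀ x : ⋀[A]^q M, ψ (extMap (A ⧸ I) q f x) =
      Submodule.Quotient.mk (wedge e q x) := by
    intro x
    rw [hψ x]
    have : exteriorPower.alternatingMapLinearEquiv
        ((Submodule.mkQ (I • ⊤ : Submodule A (⋀[A]^(q + 1) M))).compAlternatingMap
      ((exteriorPower.ιMulti A (q + 1)).curryLeft e)) =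
      (Submodule.mkQ (I • ⊤ : Submodule A (⋀[A]^(q + 1) M))) ∘ₗ wedge e q := by
      apply ιMulti_induction
      intro m
      rw [exteriorPower.alternatingMapLinearEquiv_apply_ιMulti, LinearMap.comp_apply, wedge_ιMulti]
      rfl
    rw [this]
    rfl
  refine ⟨ψ, hψ', ?_⟩
  -- exactness
  intro y hy
  obtain ⟨x, rfl⟩ := Submodule.Quotient.mk_surjective _ y
  rw [redMap_mk] at hy
  refine mem_of_extMap_eq_zero (B := A ⧸ I) Ideal.Quotient.mk_surjective f hf (q + 1)
    (LinearMap.range ψ) (Submodule.mkQ _) ?_ x hy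
  intro m i hi
  obtain ⟨a, z, hm⟩ := hker _ hi
  have h1 : exteriorPower.ιMulti A (q + 1) m =
      a • exteriorPower.ιMulti A (q + 1) (Function.update m i e) +
      t • exteriorPower.ιMulti A (q + 1) (Function.update m i z) := by
    conv_lhs => rw [← Function.update_eq_self i m, hm, AlternatingMap.map_update_add,
      AlternatingMap.map_update_smul, AlternatingMap.map_update_smul]
  have h2 : ∀ m' : Fin (q + 1) → M, m' i = e →
      ∃ x', exteriorPower.ιMulti A (q + 1) m' = wedge e q x' := by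
    intro m' hm'
    by_cases hi0 : i = 0
    · subst hi0
      refine ⟨exteriorPower.ιMulti A q (Matrix.vecTail m'), ?_⟩
      rw [wedge_ιMulti]
      congr 1
      rw [← hm']
      exact (Matrix.cons_head_tail m').symm
    · have h3 := AlternatingMap.map_swap (exteriorPower.ιMulti A (q + 1)) m' hi0
      refine ⟨-exteriorPower.ιMulti A q (Matrix.vecTail (m' ∘ Equiv.swap i 0)), ?_⟩
      rw [map_neg, wedge_ιMulti]
      have h4 : Matrix.vecCons e (Matrix.vecTail (m' ∘ Equiv.swap i 0)) =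
          m' ∘ Equiv.swap i 0 := by
        have : e = Matrix.vecHead (m' ∘ Equiv.swap i 0) := by
          simp [Matrix.vecHead, hm']
        rw [this, Matrix.cons_head_tail]
      rw [h4, h3, neg_neg]
  obtain ⟨x', hx'⟩ := h2 (Function.update m i e) (by simp)
  rw [h1, hx', Submodule.mkQ_apply, Submodule.Quotient.mk_add,
    (Submodule.Quotient.mk_eq_zero _).2 (hmemI _), add_zero]
  refine ⟨extMap (A ⧸ I) q f (a • x'), ?_⟩
  rw [hψ', map_smul]

theorem redMap_zero_injective (f : M →ₗ[A] N) (hf : Function.Surjective f) :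
    Function.Injective (redMap I 0 f) := by
  obtain ⟨g, hg⟩ := descend (A := A) (B := A ⧸ I)
    (Q := ⋀[A]^0 M ⧸ (I • ⊤ : Submodule A (⋀[A]^0 M)))
    Ideal.Quotient.mk_surjective f hf 0
    ((Submodule.mkQ (I • ⊤ : Submodule A (⋀[A]^0 M))).compAlternatingMap
      (exteriorPower.ιMulti A 0)) (fun _ i ↦ i.elim0)
  have h8 : exteriorPower.alternatingMapLinearEquiv
      ((Submodule.mkQ (I • ⊤ : Submodule A (⋀[A]^0 M))).compAlternatingMap
      (exteriorPower.ιMulti A 0)) = (Submodule.mkQ (I • ⊤ : Submodule A (⋀[A]^0 M))) := by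
    apply ιMulti_induction
    intro m
    rw [exteriorPower.alternatingMapLinearEquiv_apply_ιMulti, LinearMap.compAlternatingMap_apply]
  rw [h8] at hg
  have : Function.LeftInverse g (redMap I 0 f) := by
    intro y
    obtain ⟨x, rfl⟩ := Submodule.Quotient.mk_surjective _ y
    rw [redMap_mk, hg]
    rfl
  exact this.injective

include hI in
theorem sprop_quot [IsDomain (A ⧸ I)] (f : M →ₗ[A] N) (hf : Function.Surjective f) (e : M)
    (he : f e = 0)
    (hker : ∀ x, f x = 0 → ∃ (a : A) (z : M), x = a • e + t • z)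
    (lam : Module.Dual (A ⧸ I) ((A ⧸ I) ⊗[A] M)) (hlam : lam (1 ⊗ₜ e) ≠ 0) (p : ℕ)
    (hN : ∀ q ≤ p, SProp I (⋀[A ⧸ I]^q N)) :
    SProp I (⋀[A]^p M ⧸ (I • ⊤ : Submodule A (⋀[A]^p M))) := by
  have hred : ∀ p, Function.Surjective (redMap I p f) := by
    intro p y
    obtain ⟨x, rfl⟩ := extMap_surjective (A := A) (B := A ⧸ I) Ideal.Quotient.mk_surjective p f hf y
    exact ⟨Submodule.Quotient.mk x, rfl⟩
  rcases p with _ | q
  · -- degree zero
    refine SProp.extension (W₁ := PUnit) (0 : PUnit →ₗ[A] _) (redMap I 0 f)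
      (fun _ _ _ ↦ rfl) (hred 0) ?_ ⟨fun _ _ _ _ ↦ rfl, fun _ _ _ _ ↦ ⟨0, fun _ _ ↦ rfl⟩⟩
      (hN 0 le_rfl)
    intro y
    constructor
    · intro hy
      refine ⟨0, ?_⟩
      apply redMap_zero_injective I f hf
      rw [hy, map_zero, map_zero]
    · rintro ⟨x, rfl⟩
      simp
  · obtain ⟨ψ, hψ, hex⟩ := exists_conormal I t hI f hf e hker q
    refine SProp.extension (ψ.restrictScalars A) (redMap I (q + 1) f) ?_ (hred _) ?_
      (hN q (Nat.le_succ q)) (hN (q + 1) le_rfl)
    · rw [injective_iff_map_eq_zero]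
      intro y hy
      obtain ⟨x, rfl⟩ :=
        extMap_surjective (A := A) (B := A ⧸ I) Ideal.Quotient.mk_surjective q f hf y
      rw [LinearMap.coe_restrictScalars, hψ, Submodule.Quotient.mk_eq_zero] at hy
      have h1 := extMap_eq_zero_of_mem I (q + 1) (TensorProduct.mk A (A ⧸ I) M 1) _ hy
      let g : (A ⧸ I) ⊗[A] M →ₗ[A ⧸ I] N := LinearMap.liftBaseChange (A ⧸ I) f
      have hg : (g.restrictScalars A) ∘ₗ (TensorProduct.mk A (A ⧸ I) M 1) = f := by
        ext m
        simp [g]
      have h2 := smul_extMap_eq_zero (A := A) (B := A ⧸ I) q (TensorProduct.mk A (A ⧸ I) M 1) g e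
        (by
          have := LinearMap.congr_fun hg e
          rw [he] at this
          exact this) lam x h1
      rw [hg] at h2
      obtain ⟨s, hs⟩ := Ideal.Quotient.mk_surjective (lam (1 ⊗ₜ e))
      have h3 : s ∉ I := by
        intro h
        apply hlam
        rw [← hs, Ideal.Quotient.eq_zero_iff_mem.2 h]
      apply (hN q (Nat.le_succ q)).1 s h3
      rw [← algebraMap_smul (A ⧸ I) s, Ideal.Quotient.algebraMap_eq, hs]
      exact h2
    · intro y
      constructor
      · intro hy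
        obtain ⟨n, hn⟩ := hex y hy
        exact ⟨n, hn⟩
      · rintro ⟨n, rfl⟩
        obtain ⟨x, rfl⟩ :=
          extMap_surjective (A := A) (B := A ⧸ I) Ideal.Quotient.mk_surjective q f hf n
        rw [LinearMap.coe_restrictScalars, hψ, redMap_mk]
        apply Subtype.ext
        rw [extMap_wedge_coe, he, map_zero, zero_mul]
        rfl

end

end Pool.Agent.H71
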