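import Mathlib

open Polynomial IsLocalRing
open scoped TensorProduct

namespace Pool.Agent.H71

universe u v

variable {k : Type u} [Field k]

instance primeX : (Ideal.span {(X : k[X])}).IsPrime := by
  rw [Ideal.span_singleton_prime X_ne_zero]
  exact Polynomial.prime_X

/-- the local ring of the affine line at the origin -/
abbrev LocX (k : Type u) [Field k] : Type u := Localization.AtPrime (Ideal.span {(X : k[X])})

section

variable {S : Type v} [CommRing S] [IsLocalRing S] [Algebra k S]

theorem isUnit_aeval (t : S) (htm : t ∈ maximalIdeal S) (f : k[X])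
    (hf : f ∉ Ideal.span {(X : k[X])}) : IsUnit (aeval t f) := by
  rw [Ideal.mem_span_singleton, X_dvd_iff] at hf
  by_contra h
  have h1 : aeval t f ∈ maximalIdeal S := (mem_maximalIdeal _).2 h
  have h2 : aeval t f = algebraMap k S (f.coeff 0) + t * aeval t (divX f) := by
    have h2' := congrArg (aeval t) (divX_mul_X_add f)
    rw [map_add, map_mul, aeval_X, aeval_C] at h2'
    rw [← h2']; ring
  have h3 : algebraMap k S (f.coeff 0) ∈ maximalIdeal S := by
    have : algebraMap k S (f.coeff 0) = aeval t f - t * aeval t (divX f) := by rw [h2]; ring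
    rw [this]
    exact Ideal.sub_mem _ h1 (Ideal.mul_mem_right _ _ htm)
  have h4 : IsUnit (algebraMap k S (f.coeff 0)) := (IsUnit.mk0 _ hf).map (algebraMap k S)
  exact (mem_maximalIdeal _).1 h3 h4

theorem aeval_mem_nonZeroDivisors (t : S) (ht : t ∈ nonZeroDivisors S) (htm : t ∈ maximalIdeal S)
    (f : k[X]) (hf : f ≠ 0) : aeval t f ∈ nonZeroDivisors S := by
  obtain ⟨g, hg, hdvd⟩ := exists_eq_pow_rootMultiplicity_mul_and_not_dvd f hf 0
  rw [hg]
  simp only [map_zero, sub_zero, map_mul, map_pow, aeval_X]
  refine mul_mem (pow_mem ht _) ?_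
  apply IsUnit.mem_nonZeroDivisors
  apply isUnit_aeval t htm
  rw [Ideal.mem_span_singleton]
  simpa using hdvd

/-- The structure map from the local ring of the affine line at the origin. -/
noncomputable def locXHom (t : S) (htm : t ∈ maximalIdeal S) : LocX k →ₐ[k] S :=
  IsLocalization.liftAlgHom (M := (Ideal.span {(X : k[X])}).primeCompl)
    (f := (aeval t : k[X] →ₐ[k] S)) (fun y ↦ isUnit_aeval t htm y.1 y.2)

theorem locXHom_algebraMap (t : S) (htm : t ∈ maximalIdeal S) (f : k[X]) :
    locXHom t htm (algebraMap k[X] (LocX k) f) = aeval t f := by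
  simp [locXHom]

theorem residue_surj : Function.Surjective (algebraMap k (ResidueField (LocX k))) := by
  intro x
  obtain ⟨r, rfl⟩ := residue_surjective x
  obtain ⟨⟨f, s⟩, hfs⟩ := IsLocalization.surj (Ideal.span {(X : k[X])}).primeCompl r
  have hs : (s : k[X]).coeff 0 ≠ 0 := by
    have := s.2
    rw [Ideal.mem_primeCompl_iff, Ideal.mem_span_singleton, X_dvd_iff] at this
    exact this
  have key : ∀ g : k[X], residue (LocX k) (algebraMap k[X] (LocX k) g) =
      algebraMap k (ResidueField (LocX k)) (g.coeff 0) := by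
    intro g
    have h2 := divX_mul_X_add g
    conv_lhs => rw [← h2]
    rw [map_add, map_add, map_mul, map_mul]
    have hX : residue (LocX k) (algebraMap k[X] (LocX k) X) = 0 := by
      rw [residue_eq_zero_iff]
      rw [← Localization.AtPrime.map_eq_maximalIdeal]
      exact Ideal.mem_map_of_mem _ (Ideal.mem_span_singleton_self _)
    rw [hX, mul_zero, zero_add]
    rfl
  refine ⟨f.coeff 0 / (s : k[X]).coeff 0, ?_⟩
  have h3 := congrArg (residue (LocX k)) hfs
  rw [map_mul, key, key] at h3
  rw [map_div₀, div_eq_iff, h3]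
  simpa using hs

theorem formallySmooth_of_flat_local {R S : Type*} [CommRing R] [IsLocalRing R]
    [IsNoetherianRing R] [CommRing S] [IsLocalRing S] [Algebra R S] [Module.Flat R S]
    [IsLocalHom (algebraMap R S)] [Algebra.EssFiniteType R S]
    [Algebra.FormallySmooth (ResidueField R) (ResidueField R ⊗[R] S)] :
    Algebra.FormallySmooth R S := by
  have : Algebra.FinitePresentation R (Algebra.EssFiniteType.subalgebra R S) :=
    Algebra.FinitePresentation.of_finiteType.1 inferInstance
  exact Algebra.FormallySmooth.of_formallySmooth_residueField_tensor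
      (P := Algebra.EssFiniteType.subalgebra R S)
      (Algebra.EssFiniteType.submonoid R S)

theorem formallySmooth_quotTensor {k R S : Type*} [Field k] [CommRing R]
    [Algebra k R] [CommRing S] [Algebra k S] [Algebra R S] [IsScalarTower k R S] (I : Ideal R)
    (hres : Function.Surjective (algebraMap k (R ⧸ I)))
    (hs : Algebra.FormallySmooth k (S ⧸ I.map (algebraMap R S))) :
    Algebra.FormallySmooth (R ⧸ I) ((R ⧸ I) ⊗[R] S) := by
  let e : (S ⧸ (I.map (algebraMap R S))) ≃ₐ[R ⧸ I] (R ⧸ I) ⊗[R] S :=
    Algebra.TensorProduct.quotIdealMapEquivQuotTensor S I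
  have h1 : Algebra.FormallyUnramified k (R ⧸ I) :=
    Algebra.FormallyUnramified.of_surjective (Algebra.ofId k (R ⧸ I)) hres
  have h0 : IsScalarTower k (R ⧸ I) (S ⧸ I.map (algebraMap R S)) := by
    refine IsScalarTower.of_algebraMap_eq' ?_
    ext x
    simp only [RingHom.comp_apply]
    rw [IsScalarTower.algebraMap_apply k R (R ⧸ I)]
    change _ = Ideal.Quotient.mk _ (algebraMap R S (algebraMap k R x))
    rw [← IsScalarTower.algebraMap_apply k R S]
    rfl
  have h2 : Algebra.FormallySmooth (R ⧸ I)
      (S ⧸ I.map (algebraMap R S)) :=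
    Algebra.FormallySmooth.of_restrictScalars k (R ⧸ I) _
  exact Algebra.FormallySmooth.of_equiv e

theorem formallySmooth_of_quotient [Algebra.EssFiniteType k S] (t : S)
    (ht : t ∈ nonZeroDivisors S) (htm : t ∈ maximalIdeal S)
    (hs : Algebra.FormallySmooth k (S ⧸ Ideal.span {t})) : Algebra.FormallySmooth k S := by
  let ψ : LocX k →ₐ[k] S := locXHom t htm
  let : Algebra (LocX k) S := ψ.toRingHom.toAlgebra
  have hmap : ∀ r : LocX k, algebraMap (LocX k) S r = ψ r := fun r ↦ rfl
  have : IsScalarTower k (LocX k) S := IsScalarTower.of_algebraMap_eq' ψ.comp_algebraMap.symm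
  have : IsDedekindDomain (LocX k) :=
    IsLocalization.AtPrime.isDedekindDomain k[X] (Ideal.span {(X : k[X])}) _
  -- nonzero elements map to nonzerodivisors
  have hnz : ∀ r : LocX k, r ≠ 0 → ψ r ∈ nonZeroDivisors S := by
    intro r hr
    obtain ⟨⟨f, s⟩, hfs⟩ := IsLocalization.surj (Ideal.span {(X : k[X])}).primeCompl r
    simp only at hfs
    have hf : f ≠ 0 := by
      rintro rfl
      rw [map_zero, mul_eq_zero] at hfs
      rcases hfs with h | h
      · exact hr h
      · have := IsLocalization.map_units (LocX k) s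
        rw [h] at this
        exact not_isUnit_zero this
    have h1 : ψ r * aeval t (s : k[X]) = aeval t f := by
      rw [← locXHom_algebraMap t htm, ← locXHom_algebraMap t htm, ← map_mul, hfs]
    have h2 := aeval_mem_nonZeroDivisors t ht htm f hf
    rw [← h1] at h2
    exact (mul_mem_nonZeroDivisors.1 h2).1
  have : Module.Flat (LocX k) S := by
    rw [IsDedekindDomain.flat_iff_torsion_eq_bot, eq_bot_iff]
    intro x hx
    obtain ⟨⟨a, ha⟩, hax⟩ := (Submodule.mem_torsion'_iff _ _).1 hx
    have : ψ a * x = 0 := by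
      rw [← hmap, ← Algebra.smul_def]; exact hax
    rw [Submodule.mem_bot]
    exact (mul_left_mem_nonZeroDivisors_eq_zero_iff (hnz a (nonZeroDivisors.ne_zero ha))).1 this
  have hmax : (maximalIdeal (LocX k)).map (algebraMap (LocX k) S) = Ideal.span {t} := by
    rw [← Localization.AtPrime.map_eq_maximalIdeal, Ideal.map_map, Ideal.map_span]
    congr 1
    rw [Set.image_singleton]
    congr 1
    change ψ (algebraMap k[X] (LocX k) X) = t
    rw [locXHom_algebraMap, aeval_X]
  have : IsLocalHom (algebraMap (LocX k) S) := by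
    rw [((IsLocalRing.local_hom_TFAE (algebraMap (LocX k) S)).out 0 2 :)]
    rw [hmax, Ideal.span_singleton_le_iff_mem]
    exact htm
  have : Algebra.FormallySmooth (ResidueField (LocX k)) (ResidueField (LocX k) ⊗[LocX k] S) := by
    apply formallySmooth_quotTensor (k := k) (maximalIdeal (LocX k)) residue_surj
    rw [hmax]
    exact hs
  have : Algebra.EssFiniteType (LocX k) S := Algebra.EssFiniteType.of_comp k (LocX k) S
  have : Algebra.FormallySmooth (LocX k) S := formallySmooth_of_flat_local
  have : Algebra.FormallySmooth k (LocX k) := inferInstance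
  exact Algebra.FormallySmooth.comp k (LocX k) S

end

end Pool.Agent.H71
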