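import Mathlib
import Pool.Agent.H71.SmoothQuot
import Pool.Agent.H71.Hartogs

open IsLocalRing

namespace Pool.Agent.H71

universe u v

variable {k : Type u} [Field k] [CharZero k]

theorem formallySmooth_residueField (S : Type v) [CommRing S] [IsLocalRing S] [Algebra k S]
    [Algebra.EssFiniteType k S] : Algebra.FormallySmooth k (ResidueField S) := by
  have : Algebra.EssFiniteType k (ResidueField S) :=
    Algebra.EssFiniteType.comp k S (ResidueField S)
  exact Algebra.FormallySmooth.of_perfectField

theorem formallySmooth_of_principal (S : Type v) [CommRing S] [IsLocalRing S] [IsDomain S]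
    [Algebra k S] [Algebra.EssFiniteType k S] (h : (maximalIdeal S).IsPrincipal) :
    Algebra.FormallySmooth k S := by
  obtain ⟨⟨u, hu⟩⟩ := h
  rw [Ideal.submodule_span_eq] at hu
  have h1 : Algebra.FormallySmooth k (S ⧸ maximalIdeal S) := formallySmooth_residueField S
  rw [hu] at h1
  by_cases hu0 : u = 0
  · subst hu0
    rw [Ideal.span_singleton_eq_bot.2 rfl] at h1
    exact Algebra.FormallySmooth.of_equiv (AlgEquiv.quotientBot k S)
  · refine formallySmooth_of_quotient u (mem_nonZeroDivisors_of_ne_zero hu0) ?_ h1
    rw [hu]
    exact Ideal.mem_span_singleton_self u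

theorem formallySmooth_at_good {A : Type v} [CommRing A] [IsDomain A] [Algebra k A]
    [Algebra.EssFiniteType k A]
    (t : A) (ht : t ≠ 0) (P : Ideal (A ⧸ Ideal.span {t})) [P.IsPrime]
    [IsDomain (A ⧸ Ideal.span {t})] (hP : GoodPrime P) :
    Algebra.FormallySmooth k
      (Localization.AtPrime (P.comap (Ideal.Quotient.mk (Ideal.span {t})))) := by
  set q : Ideal A := P.comap (Ideal.Quotient.mk (Ideal.span {t})) with hq
  have htq : t ∈ q := by
    rw [hq, Ideal.mem_comap, Ideal.Quotient.eq_zero_iff_mem.2 (Ideal.mem_span_singleton_self t)]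
    exact P.zero_mem
  let S := Localization.AtPrime q
  let t' : S := algebraMap A S t
  have : IsDomain S := IsLocalization.isDomain_localization q.primeCompl_le_nonZeroDivisors
  have ht' : t' ≠ 0 := by
    intro h
    exact ht ((IsLocalization.to_map_eq_zero_iff S q.primeCompl_le_nonZeroDivisors).1 h)
  have htm : t' ∈ maximalIdeal S := by
    rw [← Localization.AtPrime.map_eq_maximalIdeal]
    exact Ideal.mem_map_of_mem _ htq
  have hess : Algebra.EssFiniteType A S := Algebra.EssFiniteType.of_isLocalization S q.primeCompl
  have hess' : Algebra.EssFiniteType k S := Algebra.EssFiniteType.comp k A S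
  refine formallySmooth_of_quotient t' (mem_nonZeroDivisors_of_ne_zero ht') htm ?_
  -- the quotient is the localization of `B` at `P`
  let B := A ⧸ Ideal.span {t}
  have hle : Ideal.span {t} ≤ (Ideal.span {t'}).comap (algebraMap A S) := by
    rw [Ideal.span_singleton_le_iff_mem, Ideal.mem_comap]
    exact Ideal.mem_span_singleton_self _
  let g : B →+* S ⧸ Ideal.span {t'} := Ideal.quotientMap _ (algebraMap A S) hle
  let _ : Algebra B (S ⧸ Ideal.span {t'}) := g.toAlgebra
  have hloc : IsLocalization (q.primeCompl.map (Ideal.Quotient.mk (Ideal.span {t})))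
      (S ⧸ Ideal.span {t'}) := by
    refine IsLocalization.of_surjective q.primeCompl S (Ideal.Quotient.mk (Ideal.span {t}))
      Ideal.Quotient.mk_surjective (Ideal.Quotient.mk (Ideal.span {t'}))
      Ideal.Quotient.mk_surjective ?_ ?_
    · ext x
      rfl
    · rw [Ideal.mk_ker, Ideal.mk_ker, Ideal.map_span, Set.image_singleton]
  have hcompl : q.primeCompl.map (Ideal.Quotient.mk (Ideal.span {t})) = P.primeCompl := by
    ext x
    constructor
    · rintro ⟨y, hy, rfl⟩
      exact hy
    · intro hx
      obtain ⟨y, rfl⟩ := Ideal.Quotient.mk_surjective x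
      exact ⟨y, hx, rfl⟩
  rw [hcompl] at hloc
  have : IsDomain (Localization.AtPrime P) :=
    IsLocalization.isDomain_localization P.primeCompl_le_nonZeroDivisors
  have hess2 : Algebra.EssFiniteType k B := Algebra.EssFiniteType.comp k A B
  have hess3 : Algebra.EssFiniteType B (Localization.AtPrime P) :=
    Algebra.EssFiniteType.of_isLocalization _ P.primeCompl
  have hess4 : Algebra.EssFiniteType k (Localization.AtPrime P) :=
    Algebra.EssFiniteType.comp k B _
  have hsm : Algebra.FormallySmooth k (Localization.AtPrime P) :=
    formallySmooth_of_principal _ hP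
  have htower : IsScalarTower k B (S ⧸ Ideal.span {t'}) := by
    refine IsScalarTower.of_algebraMap_eq' ?_
    ext x
    change _ = Ideal.Quotient.mk _ (algebraMap A S (algebraMap k A x))
    rw [← IsScalarTower.algebraMap_apply k A S]
    rfl
  exact Algebra.FormallySmooth.of_equiv
    ((IsLocalization.algEquiv P.primeCompl (Localization.AtPrime P)
      (S ⧸ Ideal.span {t'})).restrictScalars k)

end Pool.Agent.H71
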