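import Mathlib
import Pool.Agent.H71.SmoothAt
import Pool.Agent.H71.Conormal

open scoped TensorProduct
open IsLocalRing

namespace Pool.Agent.H71

universe u v

section

variable {k : Type u} [Field k] {A : Type v} [CommRing A] [Algebra k A]

theorem ker_kaehler_map (t : A) (x : Ω[A⁄k])
    (hx : KaehlerDifferential.map k k A (A ⧸ Ideal.span {t}) x = 0) :
    ∃ (a : A) (z : Ω[A⁄k]), x = a • KaehlerDifferential.D k A t + t • z := by
  have h1 : KaehlerDifferential.mapBaseChange k A (A ⧸ Ideal.span {t}) (1 ⊗ₜ x) = 0 := by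
    rw [KaehlerDifferential.mapBaseChange_tmul, hx, smul_zero]
  obtain ⟨c, hc⟩ := (KaehlerDifferential.exact_kerCotangentToTensor_mapBaseChange k A
    (A ⧸ Ideal.span {t}) Ideal.Quotient.mk_surjective _).1 h1
  obtain ⟨⟨i, hi⟩, rfl⟩ := Ideal.toCotangent_surjective _ c
  rw [KaehlerDifferential.kerCotangentToTensor_toCotangent] at hc
  have hi' : i ∈ Ideal.span {t} := by
    rw [RingHom.mem_ker, Ideal.Quotient.algebraMap_eq, Ideal.Quotient.eq_zero_iff_mem] at hi
    exact hi
  obtain ⟨a', rfl⟩ := Ideal.mem_span_singleton.1 hi'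
  have h2 : (1 : A ⧸ Ideal.span {t}) ⊗ₜ[A] (x - KaehlerDifferential.D k A (t * a')) = 0 := by
    rw [TensorProduct.tmul_sub, hc, sub_self]
  have h3 := congrArg (TensorProduct.quotTensorEquivQuotSMul (Ω[A⁄k]) (Ideal.span {t})) h2
  rw [map_zero, ← map_one (Ideal.Quotient.mk (Ideal.span {t})),
    TensorProduct.quotTensorEquivQuotSMul_mk_tmul, one_smul, Submodule.Quotient.mk_eq_zero,
    Submodule.ideal_span_singleton_smul] at h3
  obtain ⟨z, -, hz⟩ := h3
  refine ⟨a', z + KaehlerDifferential.D k A a', ?_⟩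
  have hz' : t • z = x - KaehlerDifferential.D k A (t * a') := hz
  rw [Derivation.leibniz] at hz'
  rw [smul_add, hz']
  abel

theorem isDomain_of_quotient [IsLocalRing A] [IsNoetherianRing A] (t : A)
    (ht : t ∈ nonZeroDivisors A) (htm : t ∈ maximalIdeal A) [IsDomain (A ⧸ Ideal.span {t})] :
    IsDomain A := by
  have hne : Ideal.span {t} ≠ ⊤ := by
    intro h
    have : (1 : A) ∈ maximalIdeal A := by
      have h1 : Ideal.span {t} ≤ maximalIdeal A := by
        rw [Ideal.span_singleton_le_iff_mem]; exact htm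
      exact h1 (by rw [h]; trivial)
    exact (maximalIdeal.isMaximal A).ne_top ((Ideal.eq_top_iff_one _).2 this)
  have hinf : ⨅ n : ℕ, Ideal.span {t} ^ n = ⊥ := Ideal.iInf_pow_eq_bot_of_isLocalRing _ hne
  have hprime : (Ideal.span {t}).IsPrime := Ideal.Quotient.isDomain_iff_prime _ |>.1 inferInstance
  have hdec : ∀ a : A, a ≠ 0 → ∃ (n : ℕ) (a' : A), a = t ^ n * a' ∧ a' ∉ Ideal.span {t} := by
    intro a ha
    have h1 : ∃ n : ℕ, a ∉ Ideal.span {t} ^ n := by
      by_contra hcon
      push Not at hcon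
      apply ha
      have : a ∈ ⨅ n : ℕ, Ideal.span {t} ^ n := by
        rw [Submodule.mem_iInf]; exact hcon
      rw [hinf] at this
      simpa using this
    classical
    have h2 := Nat.find_spec h1
    have h3 : Nat.find h1 ≠ 0 := by
      intro h
      rw [h] at h2
      apply h2
      simp
    obtain ⟨n, hn⟩ := Nat.exists_eq_succ_of_ne_zero h3
    have h4 : a ∈ Ideal.span {t} ^ n := by
      by_contra hcon
      have := Nat.find_min' h1 hcon
      omega
    rw [Ideal.span_singleton_pow, Ideal.mem_span_singleton] at h4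
    obtain ⟨a', rfl⟩ := h4
    refine ⟨n, a', rfl, fun h5 ↦ h2 ?_⟩
    rw [hn, Ideal.span_singleton_pow, Ideal.mem_span_singleton]
    obtain ⟨b, rfl⟩ := Ideal.mem_span_singleton.1 h5
    exact ⟨b, by rw [Nat.succ_eq_add_one, pow_succ]; ring⟩
  have : NoZeroDivisors A := by
    constructor
    intro a b hab
    by_contra hcon
    push Not at hcon
    obtain ⟨n, a', rfl, ha'⟩ := hdec a hcon.1
    obtain ⟨m, b', rfl, hb'⟩ := hdec b hcon.2
    have h1 : (a' * b') * t ^ (n + m) = 0 := by
      rw [← hab, pow_add]; ring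
    have h2 : a' * b' = 0 :=
      (mul_right_mem_nonZeroDivisors_eq_zero_iff (pow_mem ht _)).1 h1
    have h3 : a' * b' ∈ Ideal.span {t} := by rw [h2]; exact Ideal.zero_mem _
    rcases hprime.mem_or_mem h3 with h | h
    · exact ha' h
    · exact hb' h
  exact NoZeroDivisors.to_isDomain A

theorem formallySmooth_at_good' [CharZero k] [IsDomain A]
    [Algebra.EssFiniteType k A]
    (t : A) (ht : t ≠ 0) (P : Ideal (A ⧸ Ideal.span {t})) [P.IsPrime]
    [IsDomain (A ⧸ Ideal.span {t})] (hP : GoodPrime P) (q : Ideal A) [q.IsPrime]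
    (hq : q = P.comap (Ideal.Quotient.mk (Ideal.span {t}))) :
    Algebra.FormallySmooth k (Localization.AtPrime q) := by
  subst hq
  exact formallySmooth_at_good t ht P hP

theorem exists_functional [CharZero k] [IsLocalRing A] [IsDomain A] [IsNoetherianRing A]
    [Algebra.EssFiniteType k A] (t : A) (ht : t ≠ 0)
    [(Ideal.span {t}).IsPrime] [IsDomain (A ⧸ Ideal.span {t})] :
    ∃ lam : Module.Dual (A ⧸ Ideal.span {t}) ((A ⧸ Ideal.span {t}) ⊗[A] Ω[A⁄k]),
      lam (1 ⊗ₜ KaehlerDifferential.D k A t) ≠ 0 := by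
  let q : Ideal A := Ideal.span {t}
  have hsm : Algebra.FormallySmooth k (Localization.AtPrime q) :=
    formallySmooth_at_good' t ht ⊥ goodPrime_bot q (by
      rw [← RingHom.ker_eq_comap_bot, Ideal.mk_ker])
  let S := Localization.AtPrime q
  let κ := q.ResidueField
  have hess : Algebra.EssFiniteType A S := Algebra.EssFiniteType.of_isLocalization S q.primeCompl
  have hess' : Algebra.EssFiniteType k S := Algebra.EssFiniteType.comp k A S
  have hκ : Algebra.FormallySmooth k κ := formallySmooth_residueField S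
  have hsurj : Function.Surjective (algebraMap S κ) := IsLocalRing.residue_surjective
  obtain ⟨l, hl⟩ := (Algebra.FormallySmooth.iff_split_injection (R := k) (P := S) (A := κ)
    hsurj).1 hκ
  let t' : S := algebraMap A S t
  have : IsDomain S := IsLocalization.isDomain_localization q.primeCompl_le_nonZeroDivisors
  have ht' : t' ≠ 0 := by
    intro h
    exact ht ((IsLocalization.to_map_eq_zero_iff S q.primeCompl_le_nonZeroDivisors).1 h)
  have hker : RingHom.ker (algebraMap S κ) = Ideal.span {t'} := by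
    have h1 : RingHom.ker (algebraMap S κ) = maximalIdeal S := IsLocalRing.ker_residue (R := S)
    rw [h1, ← Localization.AtPrime.map_eq_maximalIdeal, Ideal.map_span, Set.image_singleton]
  have htker : t' ∈ RingHom.ker (algebraMap S κ) := by
    rw [hker]; exact Ideal.mem_span_singleton_self _
  have hv : (1 : κ) ⊗ₜ[S] KaehlerDifferential.D k S t' ≠ 0 := by
    intro h
    have h1 := LinearMap.congr_fun hl (Ideal.toCotangent _ ⟨t', htker⟩)
    rw [LinearMap.comp_apply, KaehlerDifferential.kerCotangentToTensor_toCotangent, h, map_zero,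
      LinearMap.id_apply] at h1
    have h2 := (Ideal.toCotangent_eq_zero _ _).1 h1.symm
    simp only at h2
    rw [hker, Ideal.span_singleton_pow, Ideal.mem_span_singleton] at h2
    obtain ⟨b, hb⟩ := h2
    have h3 : t' * (1 - t' * b) = 0 := by
      linear_combination hb
    rcases mul_eq_zero.1 h3 with h | h
    · exact ht' h
    · have h4 : t' ∈ maximalIdeal S := by
        rw [← IsLocalRing.ker_residue (R := S)]
        exact htker
      have h5 : IsUnit (1 - t' * b) := by
        have h6 := (IsLocalRing.isUnit_or_isUnit_one_sub_self (t' * b))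
        rcases h6 with h6 | h6
        · exact absurd (isUnit_of_mul_isUnit_left h6) ((mem_maximalIdeal _).1 h4)
        · exact h6
      rw [h] at h5
      exact not_isUnit_zero h5
  obtain ⟨φ, hφ⟩ : ∃ φ : Module.Dual κ (κ ⊗[S] Ω[S⁄k]),
      φ ((1 : κ) ⊗ₜ[S] KaehlerDifferential.D k S t') ≠ 0 := by
    by_contra hcon
    push Not at hcon
    exact hv ((Module.forall_dual_apply_eq_zero_iff κ _).1 hcon)
  let lam0 : Ω[A⁄k] →ₗ[A] κ := (φ.restrictScalars A) ∘ₗ
    ((TensorProduct.mk S κ (Ω[S⁄k]) 1).restrictScalars A) ∘ₗ (KaehlerDifferential.map k k A S)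
  let lam1 : (A ⧸ q) ⊗[A] Ω[A⁄k] →ₗ[A ⧸ q] κ := LinearMap.liftBaseChange (A ⧸ q) lam0
  have hfin : Module.FinitePresentation (A ⧸ q) ((A ⧸ q) ⊗[A] Ω[A⁄k]) :=
    Module.finitePresentation_of_finite _ _
  obtain ⟨lam, s, hlam⟩ := Module.FinitePresentation.exists_lift_of_isLocalizedModule
    (nonZeroDivisors (A ⧸ q)) (Algebra.linearMap (A ⧸ q) κ) lam1
  refine ⟨lam, fun h ↦ ?_⟩
  have h1 := LinearMap.congr_fun hlam (1 ⊗ₜ KaehlerDifferential.D k A t)
  rw [LinearMap.comp_apply] at h1
  have h2 : lam1 (1 ⊗ₜ KaehlerDifferential.D k A t) =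
      φ ((1 : κ) ⊗ₜ[S] KaehlerDifferential.D k S t') := by
    change LinearMap.liftBaseChange (A ⧸ q) lam0 (1 ⊗ₜ KaehlerDifferential.D k A t) = _
    rw [LinearMap.liftBaseChange_tmul, one_smul]
    change φ ((1 : κ) ⊗ₜ[S] (KaehlerDifferential.map k k A S (KaehlerDifferential.D k A t))) = _
    rw [KaehlerDifferential.map_D]
  have h3 : lam (1 ⊗ₜ KaehlerDifferential.D k A t) = 0 := h
  rw [h3, map_zero] at h1
  have h4 : (s : A ⧸ q) • lam1 (1 ⊗ₜ KaehlerDifferential.D k A t) = 0 := h1.symm
  rw [h2, Algebra.smul_def, mul_eq_zero] at h4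
  rcases h4 with h4 | h4
  · exact nonZeroDivisors.coe_ne_zero s
      ((IsFractionRing.to_map_eq_zero_iff (R := A ⧸ q) (K := κ)).1 h4)
  · exact hφ h4

theorem factorsFree_at_good [CharZero k] [IsDomain A] [IsNoetherianRing A]
    [Algebra.EssFiniteType k A]
    (t : A) (ht : t ≠ 0) (P : Ideal (A ⧸ Ideal.span {t})) [P.IsPrime]
    [IsDomain (A ⧸ Ideal.span {t})] (hP : GoodPrime P) (p : ℕ) :
    ∃ a : A, Ideal.Quotient.mk (Ideal.span {t}) a ∉ P ∧ FactorsFree (⋀[A]^p Ω[A⁄k]) a := by
  let q : Ideal A := P.comap (Ideal.Quotient.mk (Ideal.span {t}))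
  let S := Localization.AtPrime q
  have hsm : Algebra.FormallySmooth k S := formallySmooth_at_good' t ht P hP q rfl
  have hess : Algebra.EssFiniteType A S := Algebra.EssFiniteType.of_isLocalization S q.primeCompl
  have hess' : Algebra.EssFiniteType k S := Algebra.EssFiniteType.comp k A S
  have hloc : IsLocalizedModule q.primeCompl (KaehlerDifferential.map k k A S) :=
    KaehlerDifferential.isLocalizedModule_map k A S q.primeCompl
  have hfp : Module.FinitePresentation A (Ω[A⁄k]) := Module.finitePresentation_of_finite _ _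
  obtain ⟨s, hs, hfac⟩ := FactorsFree.of_localized q.primeCompl S
    (KaehlerDifferential.map k k A S)
  refine ⟨s ^ p, ?_, hfac.exteriorPower p⟩
  intro h
  rw [map_pow] at h
  exact hs (Ideal.IsPrime.mem_of_pow_mem inferInstance p h)

/-- Reflexivity of Kähler differentials descends from a normal Cartier divisor to the ambient
local ring. -/
theorem reflexive_kaehler [CharZero k] [IsLocalRing A] [Algebra.EssFiniteType k A] (t : A)
    (ht : t ∈ nonZeroDivisors A) (htm : t ∈ maximalIdeal A) [IsDomain (A ⧸ Ideal.span {t})]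
    [IsIntegrallyClosed (A ⧸ Ideal.span {t})] (m : ℕ)
    (h : ∀ p ≤ m, Module.IsReflexive (A ⧸ Ideal.span {t})
      (⋀[A ⧸ Ideal.span {t}]^p Ω[(A ⧸ Ideal.span {t})⁄k])) :
    ∀ p ≤ m, Module.IsReflexive A (⋀[A]^p Ω[A⁄k]) := by
  have hN : IsNoetherianRing A := Algebra.EssFiniteType.isNoetherianRing k A
  have hD : IsDomain A := isDomain_of_quotient t ht htm
  have hprime : (Ideal.span {t}).IsPrime := Ideal.Quotient.isDomain_iff_prime _ |>.1 inferInstance
  have ht0 : t ≠ 0 := nonZeroDivisors.ne_zero ht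
  intro p hp
  have hS : ∀ q ≤ p, SProp (Ideal.span {t})
      (⋀[A ⧸ Ideal.span {t}]^q Ω[(A ⧸ Ideal.span {t})⁄k]) := by
    intro q hq
    have := h q (hq.trans hp)
    exact SProp.of_reflexive _
  obtain ⟨lam, hlam⟩ := exists_functional (k := k) t ht0
  refine reflexive_of_sprop t ht0 htm rfl _ ?_ (fun P _ hP ↦ factorsFree_at_good t ht0 P hP p)
  refine sprop_quot (Ideal.span {t}) t rfl
    (KaehlerDifferential.map k k A (A ⧸ Ideal.span {t})) ?_ (KaehlerDifferential.D k A t) ?_
    (fun x hx ↦ ker_kaehler_map t x hx) lam hlam p hS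
  · exact KaehlerDifferential.map_surjective_of_surjective k k A (A ⧸ Ideal.span {t})
      Ideal.Quotient.mk_surjective
  · rw [KaehlerDifferential.map_D]
    rw [Ideal.Quotient.algebraMap_eq, Ideal.Quotient.eq_zero_iff_mem.2
      (Ideal.mem_span_singleton_self t), map_zero]

end

end Pool.Agent.H71
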