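import Mathlib

set_option autoImplicit false

/-!
# Wedge product of complex valued continuous alternating maps and the Leibniz rule

`wedge h f g : E [⋀^Fin m]→L[ℝ] ℂ` for `f : E [⋀^Fin k]→L[ℝ] ℂ`, `g : E [⋀^Fin l]→L[ℝ] ℂ`,
`h : k + l = m`, with
`wedge h f g v = 1 / (k! l!) * ∑ σ, sign σ * f (first k of v ∘ σ) * g (last l of v ∘ σ)`.
-/

namespace Pool.Agent.H71.Wedge

open Equiv Function
open scoped ContDiff

variable {E : Type*} {k l m : ℕ}

/-- full alternation of a function of `m` vectors -/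
def Alt (T : (Fin m → E) → ℂ) (v : Fin m → E) : ℂ :=
  ∑ σ : Perm (Fin m), ((Perm.sign σ : ℤ) : ℂ) * T (v ∘ σ)

theorem sgn_mul_self (τ : Perm (Fin m)) :
    ((Perm.sign τ : ℤ) : ℂ) * ((Perm.sign τ : ℤ) : ℂ) = 1 := by
  rw [← Int.cast_mul]
  rcases Int.units_eq_one_or (Perm.sign τ) with h | h <;> rw [h] <;> simp

theorem alt_comp (T : (Fin m → E) → ℂ) (τ : Perm (Fin m)) (v : Fin m → E) :
    Alt (fun v => T (v ∘ τ)) v = ((Perm.sign τ : ℤ) : ℂ) * Alt T v := by
  unfold Alt
  rw [Finset.mul_sum]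
  refine Fintype.sum_equiv (Equiv.mulRight τ) _ _ fun σ => ?_
  rw [Equiv.coe_mulRight, Perm.sign_mul]
  change ((Perm.sign σ : ℤ) : ℂ) * T (v ∘ (σ * τ : Perm (Fin m))) =
    ((Perm.sign τ : ℤ) : ℂ) * ((((Perm.sign σ * Perm.sign τ : ℤˣ) : ℤ) : ℂ) *
      T (v ∘ (σ * τ : Perm (Fin m))))
  have h2 := sgn_mul_self τ
  push_cast
  linear_combination (-((Perm.sign σ : ℤ) : ℂ) * T (v ∘ σ ∘ τ)) * h2

theorem alt_add (T S : (Fin m → E) → ℂ) (v : Fin m → E) :
    Alt (fun v => T v + S v) v = Alt T v + Alt S v := by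
  unfold Alt
  rw [← Finset.sum_add_distrib]
  exact Finset.sum_congr rfl fun σ _ => by ring

theorem alt_smul (c : ℂ) (T : (Fin m → E) → ℂ) (v : Fin m → E) :
    Alt (fun v => c * T v) v = c * Alt T v := by
  unfold Alt
  rw [Finset.mul_sum]
  exact Finset.sum_congr rfl fun σ _ => by ring

theorem alt_sum {κ : Type*} (s : Finset κ) (T : κ → (Fin m → E) → ℂ) (v : Fin m → E) :
    Alt (fun v => ∑ i ∈ s, T i v) v = ∑ i ∈ s, Alt (T i) v := by
  unfold Alt
  rw [Finset.sum_comm]
  exact Finset.sum_congr rfl fun σ _ => by rw [Finset.mul_sum]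

/-- alternation absorbs partial alternations -/
theorem alt_partial {r : ℕ} (ι : Perm (Fin r) → Perm (Fin m))
    (hι : ∀ τ, Perm.sign (ι τ) = Perm.sign τ) (T : (Fin m → E) → ℂ) (v : Fin m → E) :
    Alt (fun v => ∑ τ : Perm (Fin r), ((Perm.sign τ : ℤ) : ℂ) * T (v ∘ ι τ)) v =
      (r.factorial : ℂ) * Alt T v := by
  rw [alt_sum]
  have h1 : ∀ τ : Perm (Fin r), Alt (fun v => ((Perm.sign τ : ℤ) : ℂ) * T (v ∘ ι τ)) v =
      Alt T v := by
    intro τ
    rw [alt_smul, alt_comp, hι, ← mul_assoc, sgn_mul_self, one_mul]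
  rw [Finset.sum_congr rfl fun τ _ => h1 τ, Finset.sum_const, Finset.card_univ,
    Fintype.card_perm, Fintype.card_fin, nsmul_eq_mul]

variable [NormedAddCommGroup E] [NormedSpace ℝ E]

theorem map_perm' (f : E [⋀^Fin m]→L[ℝ] ℂ) (σ : Perm (Fin m)) (v : Fin m → E) :
    f (v ∘ σ) = ((Perm.sign σ : ℤ) : ℂ) * f v := by
  have h := f.toAlternatingMap.map_perm v σ
  have h2 : f (v ∘ σ) = Perm.sign σ • f v := h
  rw [h2]
  rcases Int.units_eq_one_or (Perm.sign σ) with h | h <;> rw [h] <;> simp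

theorem alt_alternating (f : E [⋀^Fin m]→L[ℝ] ℂ) (v : Fin m → E) :
    Alt (fun v => f v) v = (m.factorial : ℂ) * f v := by
  unfold Alt
  have h1 : ∀ σ : Perm (Fin m), ((Perm.sign σ : ℤ) : ℂ) * f (v ∘ σ) = f v := by
    intro σ
    rw [map_perm', ← mul_assoc, sgn_mul_self, one_mul]
  rw [Finset.sum_congr rfl fun σ _ => h1 σ, Finset.sum_const, Finset.card_univ,
    Fintype.card_perm, Fintype.card_fin, nsmul_eq_mul]

/-- the exterior derivative at the level of alternations -/
theorem au_eq (h : E →L[ℝ] E [⋀^Fin m]→L[ℝ] ℂ) (v : Fin (m + 1) → E) :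
    (m.factorial : ℂ) * ContinuousAlternatingMap.alternatizeUncurryFin h v =
      Alt (fun v : Fin (m + 1) → E => h (v 0) (Fin.tail v)) v := by
  set T : (Fin (m + 1) → E) → ℂ := fun v => h (v 0) (Fin.tail v) with hT
  have h1 : ∀ v : Fin (m + 1) → E, ContinuousAlternatingMap.alternatizeUncurryFin h v =
      ∑ i : Fin (m + 1), ((Perm.sign (Fin.cycleRange i) : ℤ) : ℂ) *
        T (v ∘ (Fin.cycleRange i).symm) := by
    intro v
    rw [ContinuousAlternatingMap.alternatizeUncurryFin_apply]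
    apply Finset.sum_congr rfl
    intro i _
    have h2 : T (v ∘ (Fin.cycleRange i).symm) = h (v i) (i.removeNth v) := by
      rw [hT]
      have h3 : (v ∘ (Fin.cycleRange i).symm) 0 = v i := by
        show v ((Fin.cycleRange i).symm 0) = v i
        rw [Fin.cycleRange_symm_zero]
      have h4 : Fin.tail (v ∘ (Fin.cycleRange i).symm) = i.removeNth v := by
        funext j
        show v ((Fin.cycleRange i).symm j.succ) = v (i.succAbove j)
        rw [Fin.cycleRange_symm_succ]
      simp only [h3, h4]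
    rw [h2, Fin.sign_cycleRange]
    push_cast
    rw [← Int.cast_one, ← Int.cast_neg, ← Int.cast_pow, zsmul_eq_mul]
    push_cast
    rfl
  have h5 : Alt (fun v => ContinuousAlternatingMap.alternatizeUncurryFin h v) v =
      ((m + 1 : ℕ) : ℂ) * Alt T v := by
    simp_rw [h1]
    rw [alt_sum]
    have h6 : ∀ i : Fin (m + 1), Alt (fun v => ((Perm.sign (Fin.cycleRange i) : ℤ) : ℂ) *
        T (v ∘ (Fin.cycleRange i).symm)) v = Alt T v := by
      intro i
      rw [alt_smul, alt_comp, Perm.sign_symm, ← mul_assoc, sgn_mul_self, one_mul]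
    rw [Finset.sum_congr rfl fun i _ => h6 i, Finset.sum_const, Finset.card_univ,
      Fintype.card_fin, nsmul_eq_mul]
  rw [alt_alternating, Nat.factorial_succ] at h5
  have h7 : ((m + 1 : ℕ) : ℂ) ≠ 0 := by exact_mod_cast Nat.succ_ne_zero m
  apply mul_left_cancel₀ h7
  rw [← h5]
  push_cast
  ring

/-! ### The wedge product -/

/-- inclusion of the first `k` indices -/
def il (h : k + l = m) (i : Fin k) : Fin m := ⟨i, by omega⟩

/-- inclusion of the last `l` indices -/
def ir (h : k + l = m) (j : Fin l) : Fin m := ⟨k + j, by omega⟩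

/-- the tensor product -/
def TT (h : k + l = m) (f : (Fin k → E) → ℂ) (g : (Fin l → E) → ℂ) (v : Fin m → E) : ℂ :=
  f (fun i => v (il h i)) * g (fun j => v (ir h j))

/-- the tensor product as a multilinear map -/
noncomputable def TM (h : k + l = m) (f : E [⋀^Fin k]→L[ℝ] ℂ) (g : E [⋀^Fin l]→L[ℝ] ℂ) :
    MultilinearMap ℝ (fun _ : Fin m => E) ℂ :=
  ((LinearMap.mul' ℝ ℂ).compMultilinearMap
    (f.toContinuousMultilinearMap.toMultilinearMap.domCoprod
      g.toContinuousMultilinearMap.toMultilinearMap)).domDomCongr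
    (finSumFinEquiv.trans (finCongr h))

theorem TM_apply (h : k + l = m) (f : E [⋀^Fin k]→L[ℝ] ℂ) (g : E [⋀^Fin l]→L[ℝ] ℂ)
    (v : Fin m → E) : TM h f g v = TT h f g v := rfl

/-- the wedge product as an alternating map -/
noncomputable def wedgeA (h : k + l = m) (f : E [⋀^Fin k]→L[ℝ] ℂ) (g : E [⋀^Fin l]→L[ℝ] ℂ) :
    E [⋀^Fin m]→ₗ[ℝ] ℂ :=
  (1 / ((k.factorial : ℝ) * l.factorial) : ℝ) • MultilinearMap.alternatization (TM h f g)

theorem wedgeA_apply (h : k + l = m) (f : E [⋀^Fin k]→L[ℝ] ℂ) (g : E [⋀^Fin l]→L[ℝ] ℂ)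
    (v : Fin m → E) : wedgeA h f g v = (1 / ((k.factorial : ℂ) * l.factorial)) *
      Alt (TT h f g) v := by
  unfold wedgeA Alt
  rw [AlternatingMap.smul_apply, MultilinearMap.alternatization_apply, Complex.real_smul]
  push_cast
  congr 1
  apply Finset.sum_congr rfl
  intro σ _
  have h1 : (TM h f g).domDomCongr σ v = TT h f g (v ∘ σ) := rfl
  rw [h1]
  rcases Int.units_eq_one_or (Perm.sign σ) with h | h <;> rw [h] <;> simp

/-- the wedge product -/
noncomputable def wedge (h : k + l = m) (f : E [⋀^Fin k]→L[ℝ] ℂ) (g : E [⋀^Fin l]→L[ℝ] ℂ) :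
    E [⋀^Fin m]→L[ℝ] ℂ :=
  { wedgeA h f g with
    cont := by
      have h1 : (fun v => wedgeA h f g v) = fun v : Fin m → E =>
          (1 / ((k.factorial : ℂ) * l.factorial)) * ∑ σ : Perm (Fin m),
            ((Perm.sign σ : ℤ) : ℂ) * (f (fun i => v (σ (il h i))) * g (fun j => v (σ (ir h j)))) :=
        funext fun v => wedgeA_apply h f g v
      show Continuous fun v => wedgeA h f g v
      rw [h1]
      refine continuous_const.mul (continuous_finsetSum _ fun σ _ => continuous_const.mul ?_)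
      exact (f.cont.comp (continuous_pi fun i => continuous_apply _)).mul
        (g.cont.comp (continuous_pi fun i => continuous_apply _)) }

theorem wedge_apply (h : k + l = m) (f : E [⋀^Fin k]→L[ℝ] ℂ) (g : E [⋀^Fin l]→L[ℝ] ℂ)
    (v : Fin m → E) : wedge h f g v = (1 / ((k.factorial : ℂ) * l.factorial)) *
      Alt (TT h f g) v := wedgeA_apply h f g v

theorem wedge_eq (h : k + l = m) (f : E [⋀^Fin k]→L[ℝ] ℂ) (g : E [⋀^Fin l]→L[ℝ] ℂ)
    (v : Fin m → E) : wedge h f g v = (1 / ((k.factorial : ℂ) * l.factorial)) *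
      ∑ σ : Perm (Fin m), ((Perm.sign σ : ℤ) : ℂ) *
        (f (fun i => v (σ (il h i))) * g (fun j => v (σ (ir h j)))) := wedgeA_apply h f g v

theorem wedge_add_left (h : k + l = m) (f f' : E [⋀^Fin k]→L[ℝ] ℂ) (g : E [⋀^Fin l]→L[ℝ] ℂ) :
    wedge h (f + f') g = wedge h f g + wedge h f' g := by
  ext v
  simp only [ContinuousAlternatingMap.add_apply, wedge_eq]
  rw [← mul_add, ← Finset.sum_add_distrib]
  congr 1
  exact Finset.sum_congr rfl fun σ _ => by ring

theorem wedge_add_right (h : k + l = m) (f : E [⋀^Fin k]→L[ℝ] ℂ) (g g' : E [⋀^Fin l]→L[ℝ] ℂ) :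
    wedge h f (g + g') = wedge h f g + wedge h f g' := by
  ext v
  simp only [ContinuousAlternatingMap.add_apply, wedge_eq]
  rw [← mul_add, ← Finset.sum_add_distrib]
  congr 1
  exact Finset.sum_congr rfl fun σ _ => by ring

theorem wedge_smul_left (h : k + l = m) (c : ℂ) (f : E [⋀^Fin k]→L[ℝ] ℂ)
    (g : E [⋀^Fin l]→L[ℝ] ℂ) : wedge h (c • f) g = c • wedge h f g := by
  ext v
  simp only [ContinuousAlternatingMap.smul_apply, wedge_eq, smul_eq_mul]
  rw [mul_left_comm]
  congr 1
  rw [Finset.mul_sum]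
  exact Finset.sum_congr rfl fun σ _ => by ring

theorem wedge_smul_right (h : k + l = m) (c : ℂ) (f : E [⋀^Fin k]→L[ℝ] ℂ)
    (g : E [⋀^Fin l]→L[ℝ] ℂ) : wedge h f (c • g) = c • wedge h f g := by
  ext v
  simp only [ContinuousAlternatingMap.smul_apply, wedge_eq, smul_eq_mul]
  rw [mul_left_comm]
  congr 1
  rw [Finset.mul_sum]
  exact Finset.sum_congr rfl fun σ _ => by ring

theorem real_smul_eq (c : ℝ) (f : E [⋀^Fin k]→L[ℝ] ℂ) : c • f = (c : ℂ) • f := by
  ext v
  simp only [ContinuousAlternatingMap.smul_apply, Complex.real_smul, smul_eq_mul]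

theorem wedge_norm (h : k + l = m) (f : E [⋀^Fin k]→L[ℝ] ℂ) (g : E [⋀^Fin l]→L[ℝ] ℂ) :
    ‖wedge h f g‖ ≤ m.factorial * ‖f‖ * ‖g‖ := by
  have hpos : 0 ≤ (m.factorial : ℝ) * ‖f‖ * ‖g‖ := by positivity
  refine ContinuousAlternatingMap.opNorm_le_bound _ hpos fun v => ?_
  rw [wedge_eq, norm_mul]
  have h1 : ‖(1 / ((k.factorial : ℂ) * l.factorial))‖ ≤ 1 := by
    rw [norm_div, norm_one, norm_mul, Complex.norm_natCast, Complex.norm_natCast]
    have h2 : (1 : ℝ) ≤ k.factorial := by exact_mod_cast Nat.factorial_pos k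
    have h3 : (1 : ℝ) ≤ l.factorial := by exact_mod_cast Nat.factorial_pos l
    rw [div_le_one (by positivity)]
    nlinarith
  have h2 : ∀ σ : Perm (Fin m), ‖((Perm.sign σ : ℤ) : ℂ) *
      (f (fun i => v (σ (il h i))) * g (fun j => v (σ (ir h j))))‖ ≤ ‖f‖ * ‖g‖ * ∏ i, ‖v i‖ := by
    intro σ
    have h3 : ‖((Perm.sign σ : ℤ) : ℂ)‖ = 1 := by
      rcases Int.units_eq_one_or (Perm.sign σ) with h | h <;> rw [h] <;> simp
    rw [norm_mul, h3, one_mul, norm_mul]
    have h4 := f.le_opNorm (fun i => v (σ (il h i)))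
    have h5 := g.le_opNorm (fun j => v (σ (ir h j)))
    have h6 : ∏ i, ‖v i‖ = (∏ i : Fin k, ‖v (σ (il h i))‖) * ∏ j : Fin l, ‖v (σ (ir h j))‖ := by
      rw [← Equiv.prod_comp σ (fun i => ‖v i‖), ← Equiv.prod_comp
        (finSumFinEquiv.trans (finCongr h)) (fun i => ‖v (σ i)‖), Fintype.prod_sum_type]
      rfl
    rw [h6]
    calc ‖f fun i => v (σ (il h i))‖ * ‖g fun j => v (σ (ir h j))‖
        ≤ (‖f‖ * ∏ i : Fin k, ‖v (σ (il h i))‖) * (‖g‖ * ∏ j : Fin l, ‖v (σ (ir h j))‖) :=
          mul_le_mul h4 h5 (norm_nonneg _) (by positivity)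
      _ = _ := by ring
  calc ‖(1 / ((k.factorial : ℂ) * l.factorial))‖ * ‖∑ σ : Perm (Fin m),
        ((Perm.sign σ : ℤ) : ℂ) * (f (fun i => v (σ (il h i))) * g (fun j => v (σ (ir h j))))‖
      ≤ 1 * ∑ _σ : Perm (Fin m), ‖f‖ * ‖g‖ * ∏ i, ‖v i‖ :=
        mul_le_mul h1 ((norm_sum_le _ _).trans (Finset.sum_le_sum fun σ _ => h2 σ)) (norm_nonneg _)
          zero_le_one
    _ = m.factorial * ‖f‖ * ‖g‖ * ∏ i, ‖v i‖ := by
        rw [Finset.sum_const, Finset.card_univ, Fintype.card_perm, Fintype.card_fin, nsmul_eq_mul]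
        ring

/-- the wedge product is a bounded bilinear map -/
theorem isBoundedBilinear_wedge (h : k + l = m) : IsBoundedBilinearMap ℝ
    (fun p : (E [⋀^Fin k]→L[ℝ] ℂ) × (E [⋀^Fin l]→L[ℝ] ℂ) => wedge h p.1 p.2) where
  add_left f f' g := wedge_add_left h f f' g
  smul_left c f g := by
    show wedge h (c • f) g = c • wedge h f g
    rw [real_smul_eq, wedge_smul_left, ← real_smul_eq]
  add_right f g g' := wedge_add_right h f g g'
  smul_right c f g := by
    show wedge h f (c • g) = c • wedge h f g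
    rw [real_smul_eq, wedge_smul_right, ← real_smul_eq]
  bound := ⟨m.factorial, by exact_mod_cast Nat.factorial_pos m, fun f g => wedge_norm h f g⟩

theorem contDiffOn_wedge (h : k + l = m) {G : Type*} [NormedAddCommGroup G] [NormedSpace ℝ G]
    {N : WithTop ℕ∞} {om : G → E [⋀^Fin k]→L[ℝ] ℂ} {et : G → E [⋀^Fin l]→L[ℝ] ℂ} {s : Set G}
    (hom : ContDiffOn ℝ N om s) (het : ContDiffOn ℝ N et s) :
    ContDiffOn ℝ N (fun x => wedge h (om x) (et x)) s := by
  have h0 : ContDiff ℝ N (fun p : (E [⋀^Fin k]→L[ℝ] ℂ) × (E [⋀^Fin l]→L[ℝ] ℂ) =>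
      wedge h p.1 p.2) := (isBoundedBilinear_wedge (E := E) h).contDiff
  have h3 := h0.comp_contDiffOn (hom.prodMk het)
  simp only [comp_def] at h3
  exact h3

theorem fderiv_wedge (h : k + l = m) {om : E → E [⋀^Fin k]→L[ℝ] ℂ}
    {et : E → E [⋀^Fin l]→L[ℝ] ℂ} {x : E}
    (hom : DifferentiableAt ℝ om x) (het : DifferentiableAt ℝ et x) (e : E) :
    fderiv ℝ (fun x => wedge h (om x) (et x)) x e =
      wedge h (fderiv ℝ om x e) (et x) + wedge h (om x) (fderiv ℝ et x e) := by
  have h1 := (isBoundedBilinear_wedge (E := E) h).hasFDerivAt (om x, et x)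
  have h2 := h1.comp x (hom.hasFDerivAt.prodMk het.hasFDerivAt)
  have h3 : HasFDerivAt (fun x => wedge h (om x) (et x)) _ x := h2
  rw [h3.fderiv]
  show wedge h (om x) (fderiv ℝ et x e) + wedge h (fderiv ℝ om x e) (et x) = _
  rw [add_comm]

/-- embeddings of permutations -/
def permTail (τ : Perm (Fin m)) : Perm (Fin (m + 1)) := Equiv.Perm.decomposeFin.symm (0, τ)

theorem permTail_zero (τ : Perm (Fin m)) : permTail τ 0 = 0 := by
  unfold permTail
  rw [Equiv.Perm.decomposeFin_symm_apply_zero]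

theorem permTail_succ (τ : Perm (Fin m)) (i : Fin m) : permTail τ i.succ = (τ i).succ := by
  unfold permTail
  rw [Equiv.Perm.decomposeFin_symm_apply_succ]
  simp

theorem permTail_sign (τ : Perm (Fin m)) : Perm.sign (permTail τ) = Perm.sign τ := by
  unfold permTail
  rw [Equiv.Perm.decomposeFin.symm_sign]
  simp

/-- permutations of the first block -/
def permL (h : k + l = m) (τ : Perm (Fin k)) : Perm (Fin m) :=
  (finSumFinEquiv.trans (finCongr h)).permCongr (Equiv.sumCongr τ (Equiv.refl _))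

/-- permutations of the second block -/
def permR (h : k + l = m) (τ : Perm (Fin l)) : Perm (Fin m) :=
  (finSumFinEquiv.trans (finCongr h)).permCongr (Equiv.sumCongr (Equiv.refl _) τ)

theorem il_eq (h : k + l = m) (i : Fin k) :
    il h i = (finSumFinEquiv.trans (finCongr h)) (Sum.inl i) := rfl

theorem ir_eq (h : k + l = m) (i : Fin l) :
    ir h i = (finSumFinEquiv.trans (finCongr h)) (Sum.inr i) := rfl

theorem permL_il (h : k + l = m) (τ : Perm (Fin k)) (i : Fin k) :
    permL h τ (il h i) = il h (τ i) := by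
  unfold permL
  rw [il_eq, Equiv.permCongr_apply, Equiv.symm_apply_apply]
  rfl

theorem permL_ir (h : k + l = m) (τ : Perm (Fin k)) (i : Fin l) :
    permL h τ (ir h i) = ir h i := by
  unfold permL
  rw [ir_eq, Equiv.permCongr_apply, Equiv.symm_apply_apply]
  rfl

theorem permR_il (h : k + l = m) (τ : Perm (Fin l)) (i : Fin k) :
    permR h τ (il h i) = il h i := by
  unfold permR
  rw [il_eq, Equiv.permCongr_apply, Equiv.symm_apply_apply]
  rfl

theorem permR_ir (h : k + l = m) (τ : Perm (Fin l)) (i : Fin l) :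
    permR h τ (ir h i) = ir h (τ i) := by
  unfold permR
  rw [ir_eq, Equiv.permCongr_apply, Equiv.symm_apply_apply]
  rfl

theorem permL_sign (h : k + l = m) (τ : Perm (Fin k)) : Perm.sign (permL h τ) = Perm.sign τ := by
  unfold permL
  rw [Equiv.Perm.sign_permCongr]
  have : (Equiv.sumCongr τ (Equiv.refl (Fin l)) : Perm (Fin k ⊕ Fin l)) =
      Equiv.Perm.sumCongr τ 1 := rfl
  rw [this, Equiv.Perm.sign_sumCongr]
  simp

theorem permR_sign (h : k + l = m) (τ : Perm (Fin l)) : Perm.sign (permR h τ) = Perm.sign τ := by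
  unfold permR
  rw [Equiv.Perm.sign_permCongr]
  have : (Equiv.sumCongr (Equiv.refl (Fin k)) τ : Perm (Fin k ⊕ Fin l)) =
      Equiv.Perm.sumCongr 1 τ := rfl
  rw [this, Equiv.Perm.sign_sumCongr]
  simp

/-- THE LEIBNIZ RULE -/
theorem extDeriv_wedge (h : k + l = m) (h1 : (k + 1) + l = m + 1) (h2 : k + (l + 1) = m + 1)
    {om : E → E [⋀^Fin k]→L[ℝ] ℂ} {et : E → E [⋀^Fin l]→L[ℝ] ℂ} {x : E}
    (hom : DifferentiableAt ℝ om x) (het : DifferentiableAt ℝ et x) :
    extDeriv (fun x => wedge h (om x) (et x)) x =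
      wedge h1 (extDeriv om x) (et x) + (-1 : ℂ) ^ k • wedge h2 (om x) (extDeriv et x) := by
  ext v
  set a := fderiv ℝ om x with ha
  set b := fderiv ℝ et x with hb
  set f := om x with hf
  set g := et x with hg
  have hkf : (k.factorial : ℂ) ≠ 0 := by exact_mod_cast (Nat.factorial_pos k).ne'
  have hlf : (l.factorial : ℂ) ≠ 0 := by exact_mod_cast (Nat.factorial_pos l).ne'
  have hmf : (m.factorial : ℂ) ≠ 0 := by exact_mod_cast (Nat.factorial_pos m).ne'
  have hk1 : ((k : ℂ) + 1) ≠ 0 := by exact_mod_cast Nat.succ_ne_zero k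
  have hl1 : ((l : ℂ) + 1) ≠ 0 := by exact_mod_cast Nat.succ_ne_zero l
  -- the two basic functions
  let P : (Fin (m + 1) → E) → ℂ := fun v =>
    a (v 0) (fun i => v (il h i).succ) * g (fun j => v (ir h j).succ)
  let Q : (Fin (m + 1) → E) → ℂ := fun v =>
    f (fun i => v (il h i).succ) * b (v 0) (fun j => v (ir h j).succ)
  -- left side
  have hL : extDeriv (fun x => wedge h (om x) (et x)) x v =
      (1 / ((k.factorial : ℂ) * l.factorial)) * (Alt P v + Alt Q v) := by
    have e1 := au_eq (fderiv ℝ (fun x => wedge h (om x) (et x)) x) v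
    have e2 : (fun v : Fin (m + 1) → E => fderiv ℝ (fun x => wedge h (om x) (et x)) x (v 0)
        (Fin.tail v)) = fun v : Fin (m + 1) → E => (1 / ((k.factorial : ℂ) * l.factorial)) *
          ∑ τ : Perm (Fin m), ((Perm.sign τ : ℤ) : ℂ) *
            ((fun v => P v + Q v) (v ∘ permTail τ)) := by
      funext v
      rw [fderiv_wedge h hom het, ContinuousAlternatingMap.add_apply, wedge_eq, wedge_eq,
        ← mul_add, ← Finset.sum_add_distrib]
      congr 1
      apply Finset.sum_congr rfl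
      intro τ _
      simp only [P, Q, comp_apply, permTail_zero, permTail_succ]
      have e3 : ∀ i : Fin m, Fin.tail v (τ i) = v (τ i).succ := fun i => rfl
      simp only [e3]
      ring
    rw [e2, alt_smul, alt_partial permTail permTail_sign (fun v => P v + Q v), alt_add] at e1
    have e4 : (m.factorial : ℂ) * extDeriv (fun x => wedge h (om x) (et x)) x v =
        (m.factorial : ℂ) * ((1 / ((k.factorial : ℂ) * l.factorial)) * (Alt P v + Alt Q v)) := by
      rw [show (m.factorial : ℂ) * extDeriv (fun x => wedge h (om x) (et x)) x v = _ from e1]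
      ring
    exact mul_left_cancel₀ hmf e4
  -- first term on the right
  have hR1 : wedge h1 (extDeriv om x) g v =
      (1 / ((k.factorial : ℂ) * l.factorial)) * Alt P v := by
    rw [wedge_apply]
    have e1 : ∀ w : Fin (k + 1) → E, extDeriv om x w =
        (1 / (k.factorial : ℂ)) * ∑ τ : Perm (Fin (k + 1)), ((Perm.sign τ : ℤ) : ℂ) *
          (a (w (τ 0)) (fun i => w (τ i.succ))) := by
      intro w
      have e2 := au_eq a w
      have e3 : (k.factorial : ℂ) * extDeriv om x w = ∑ τ : Perm (Fin (k + 1)),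
        ((Perm.sign τ : ℤ) : ℂ) * (a (w (τ 0)) (fun i => w (τ i.succ))) := e2
      rw [← e3]
      field_simp
    have e2 : TT h1 (extDeriv om x) g = fun v : Fin (m + 1) → E => (1 / (k.factorial : ℂ)) *
        ∑ τ : Perm (Fin (k + 1)), ((Perm.sign τ : ℤ) : ℂ) * P (v ∘ permL h1 τ) := by
      funext v
      unfold TT
      rw [e1, mul_assoc]
      congr 1
      rw [Finset.sum_mul]
      apply Finset.sum_congr rfl
      intro τ _
      simp only [P, comp_apply]
      have e3 : permL h1 τ 0 = il h1 (τ 0) := by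
        rw [← permL_il h1 τ 0]
        rfl
      have e4 : ∀ i : Fin k, permL h1 τ (il h i).succ = il h1 (τ i.succ) := by
        intro i
        rw [← permL_il h1 τ i.succ]
        rfl
      have e5 : ∀ j : Fin l, permL h1 τ (ir h j).succ = ir h1 j := by
        intro j
        rw [← permL_ir h1 τ j]
        congr 1
        apply Fin.ext
        show k + (j : ℕ) + 1 = k + 1 + j
        omega
      rw [e3]
      simp only [e4, e5]
      ring
    rw [e2, alt_smul, alt_partial (permL h1) (permL_sign h1) P, Nat.factorial_succ]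
    push_cast
    field_simp
  -- second term on the right
  have hR2 : wedge h2 f (extDeriv et x) v =
      (1 / ((k.factorial : ℂ) * l.factorial)) * ((-1 : ℂ) ^ k * Alt Q v) := by
    rw [wedge_apply]
    let Q' : (Fin (m + 1) → E) → ℂ := fun v =>
      f (fun i => v (il h2 i)) * b (v (ir h2 0)) (fun j => v (ir h2 j.succ))
    have e1 : ∀ w : Fin (l + 1) → E, extDeriv et x w =
        (1 / (l.factorial : ℂ)) * ∑ τ : Perm (Fin (l + 1)), ((Perm.sign τ : ℤ) : ℂ) *
          (b (w (τ 0)) (fun i => w (τ i.succ))) := by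
      intro w
      have e2 := au_eq b w
      have e3 : (l.factorial : ℂ) * extDeriv et x w = ∑ τ : Perm (Fin (l + 1)),
        ((Perm.sign τ : ℤ) : ℂ) * (b (w (τ 0)) (fun i => w (τ i.succ))) := e2
      rw [← e3]
      field_simp
    have e2 : TT h2 f (extDeriv et x) = fun v : Fin (m + 1) → E => (1 / (l.factorial : ℂ)) *
        ∑ τ : Perm (Fin (l + 1)), ((Perm.sign τ : ℤ) : ℂ) * Q' (v ∘ permR h2 τ) := by
      funext v
      unfold TT
      rw [e1, mul_left_comm]
      congr 1
      rw [Finset.mul_sum]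
      apply Finset.sum_congr rfl
      intro τ _
      simp only [Q', comp_apply, permR_il, permR_ir]
      ring
    have hkm : k < m + 1 := by omega
    let c : Perm (Fin (m + 1)) := Fin.cycleRange ⟨k, hkm⟩
    have e3 : Q = fun v => Q' (v ∘ c) := by
      funext v
      simp only [Q, Q', comp_apply]
      have c1 : ∀ i : Fin k, c (il h2 i) = (il h i).succ := by
        intro i
        apply Fin.ext
        have : (c (il h2 i) : ℕ) = (il h2 i : ℕ) + 1 :=
          Fin.coe_cycleRange_of_lt (by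
            rw [Fin.lt_def]
            exact i.2)
        rw [this]
        rfl
      have c2 : c (ir h2 0) = 0 := by
        have : ir h2 (0 : Fin (l + 1)) = ⟨k, hkm⟩ := rfl
        rw [this]
        exact Fin.cycleRange_self _
      have c3 : ∀ j : Fin l, c (ir h2 j.succ) = (ir h j).succ := by
        intro j
        have : c (ir h2 j.succ) = ir h2 j.succ := Fin.cycleRange_of_gt (by
          rw [Fin.lt_def]
          show k < k + (j + 1)
          omega)
        rw [this]
        rfl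
      simp only [c1, c2, c3]
    have e4 : Alt Q v = (-1 : ℂ) ^ k * Alt Q' v := by
      rw [e3, alt_comp, Fin.sign_cycleRange]
      push_cast
      rfl
    have e5 : (-1 : ℂ) ^ k * Alt Q v = Alt Q' v := by
      rw [e4, ← mul_assoc, ← mul_pow]
      simp
    rw [e5, e2, alt_smul, alt_partial (permR h2) (permR_sign h2) Q', Nat.factorial_succ]
    push_cast
    field_simp
  rw [ContinuousAlternatingMap.add_apply, ContinuousAlternatingMap.smul_apply, hL, hR1, hR2,
    smul_eq_mul]
  have e6 : ((-1 : ℂ) ^ k) * ((-1 : ℂ) ^ k) = 1 := by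
    rw [← mul_pow]
    simp
  linear_combination (-(1 / ((k.factorial : ℂ) * l.factorial)) * Alt Q v) * e6

/-- compatibility with pullback -/
theorem wedge_comp (h : k + l = m) {E' : Type*} [NormedAddCommGroup E'] [NormedSpace ℝ E']
    (f : E [⋀^Fin k]→L[ℝ] ℂ) (g : E [⋀^Fin l]→L[ℝ] ℂ) (A : E' →L[ℝ] E) :
    wedge h (f.compContinuousLinearMap A) (g.compContinuousLinearMap A) =
      (wedge h f g).compContinuousLinearMap A := by
  ext v
  rw [ContinuousAlternatingMap.compContinuousLinearMap_apply, wedge_eq, wedge_eq]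
  rfl

/-- the block swap -/
theorem exists_swap (h : k + l = m) (h' : l + k = m) :
    ∃ τ : Perm (Fin m), (∀ i : Fin k, τ (ir h' i) = il h i) ∧
      (∀ j : Fin l, τ (il h' j) = ir h j) ∧ Perm.sign τ = (-1) ^ (k * l) := by
  cases m with
  | zero =>
    have hk : k = 0 := by omega
    subst hk
    refine ⟨1, fun i => i.elim0, fun j => ?_, by simp⟩
    have := j.2
    omega
  | succ m =>
    have key : ∀ (r : ℕ) (x : Fin (m + 1)), (((finRotate (m + 1)) ^ r) x : ℕ) =
        ((x : ℕ) + r) % (m + 1) := by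
      intro r
      induction r with
      | zero =>
        intro x
        simp [Nat.mod_eq_of_lt x.2]
      | succ r ih =>
        intro x
        rw [pow_succ', Perm.mul_apply, finRotate_apply, Fin.val_add, ih]
        simp only [Fin.val_one']
        rw [← Nat.add_mod]
        rfl
    refine ⟨(finRotate (m + 1)) ^ k, fun i => ?_, fun j => ?_, ?_⟩
    · apply Fin.ext
      rw [key]
      show (l + (i : ℕ) + k) % (m + 1) = i
      have : l + (i : ℕ) + k = i + (m + 1) := by omega
      rw [this, Nat.add_mod_right, Nat.mod_eq_of_lt]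
      have := i.2
      omega
    · apply Fin.ext
      rw [key]
      show ((j : ℕ) + k) % (m + 1) = k + j
      rw [Nat.mod_eq_of_lt, add_comm]
      have := j.2
      omega
    · rw [map_pow, sign_finRotate, ← pow_mul]
      have h2 : (m + 1) * k = k * k + k * l := by
        rw [← h]
        ring
      have h3 : Even (k * (k + 1)) := Nat.even_mul_succ_self k
      have h4 : m * k + 2 * k = k * (k + 1) + k * l := by nlinarith
      have h5 : ((-1 : ℤˣ)) ^ (m * k + 2 * k) = (-1) ^ (k * (k + 1) + k * l) := by rw [h4]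
      rw [pow_add, pow_add, h3.neg_one_pow, one_mul, (even_two_mul k).neg_one_pow, mul_one] at h5
      exact h5

/-- graded commutativity -/
theorem wedge_comm (h : k + l = m) (h' : l + k = m) (f : E [⋀^Fin k]→L[ℝ] ℂ)
    (g : E [⋀^Fin l]→L[ℝ] ℂ) : wedge h f g = (-1 : ℂ) ^ (k * l) • wedge h' g f := by
  obtain ⟨τ, h1, h2, h3⟩ := exists_swap h h'
  ext v
  rw [ContinuousAlternatingMap.smul_apply, wedge_apply, wedge_apply]
  have e1 : TT h f g = fun v => TT h' g f (v ∘ τ) := by
    funext v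
    unfold TT
    simp only [comp_apply, h1, h2]
    ring
  rw [e1, alt_comp, h3]
  push_cast
  rw [smul_eq_mul]
  ring

end Pool.Agent.H71.Wedge
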